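import Pool.Agent.Y646.RB.Conn

/-!
# Aperiodic automata
-/

namespace Pool.Agent.Y646.RB

open Pool.Agent.NPC Pool.Agent.H623R2.PS Pool.Agent.H505R3.RS

set_option autoImplicit false

/-- aperiodic (counter-free) automata: a state fixed by a positive power of a word is fixed by
the word -/
def Aperiodic (I : Inst) : Prop :=
  ∀ (w : List (Fin I.m)) (q : Fin I.n) (d : ℕ),
    (fun p => w.foldl I.δ p)^[d + 1] q = q → w.foldl I.δ q = q

theorem const_cycle {α : Type} {f : α → α} {t : α} (hf : ∀ x, f x = t) {d : ℕ} {x : α}
    (h : f^[d + 1] x = x) : f x = x := by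
  have h1 : f^[d + 1] x = t := by
    rw [Function.iterate_succ_apply']
    exact hf _
  exact (hf x).trans (h1.symm.trans h)

theorem ap_addC {I : Inst} (h : Aperiodic I) : Aperiodic (addC I) := by
  intro w q d hd
  rcases addC_cases I w with ⟨w', hw'⟩ | ⟨t, ht⟩
  · have e : (fun p => w.foldl (addC I).δ p) = fun p => w'.foldl I.δ p := funext hw'
    have h1 : (fun p => w'.foldl I.δ p)^[d + 1] q = q := by
      rw [← e]
      exact hd
    exact (hw' q).trans (h w' q d h1)
  · exact const_cycle ht hd

theorem few_form (I : Inst) {m : ℕ} (w : List (Fin m)) :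
    ∃ (lev : Fin (I.m + 1) → Fin (I.m + 1)) (u : Fin (I.m + 1) → List (Fin I.m)),
      (∀ i q, fs I w (i, q) = (lev i, (u i).foldl I.δ q)) ∧
      ((∃ t, ∀ i, lev i = t) ∨ ∀ i, i ≤ lev i) := by
  induction w using List.reverseRecOn with
  | nil => exact ⟨fun i => i, fun _ => [], fun i q => rfl, Or.inr fun i => le_rfl⟩
  | append_singleton w a ih =>
    obtain ⟨lev, u, h, hl⟩ := ih
    by_cases ha : a.val = 1
    · refine ⟨fun _ => 0, fun i => if hi : (lev i).val < I.m then u i ++ [⟨(lev i).val, hi⟩]
        else u i, fun i q => ?_, Or.inl ⟨0, fun _ => rfl⟩⟩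
      rw [fs_snoc, h]
      unfold stepP
      rw [if_pos ha]
      by_cases hi : (lev i).val < I.m
      · simp only [dif_pos hi, List.foldl_append, List.foldl_cons, List.foldl_nil]
      · simp only [dif_neg hi]
    · refine ⟨fun i => ⟨min ((lev i).val + 1) I.m, by omega⟩, u, fun i q => ?_, ?_⟩
      · rw [fs_snoc, h]
        unfold stepP
        rw [if_neg ha]
      · rcases hl with ⟨t, ht⟩ | hl
        · exact Or.inl ⟨⟨min (t.val + 1) I.m, by omega⟩, fun i => Fin.ext (by simp [ht i])⟩
        · refine Or.inr fun i => ?_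
          have h1 := Fin.le_def.1 (hl i)
          have h2 := i.2
          rw [Fin.le_def]
          simp only
          omega

theorem ap_few {I : Inst} (h : Aperiodic I) (m : ℕ) : Aperiodic (few m I) := by
  intro w s d hd
  obtain ⟨lev, u, hf, hl⟩ := few_form I (m := m) w
  obtain ⟨⟨i, q⟩, rfl⟩ := finProdFinEquiv.surjective s
  have e : ∀ r, (fun p => w.foldl (few m I).δ p)^[r] (finProdFinEquiv (i, q)) =
      finProdFinEquiv ((fs I w)^[r] (i, q)) := by
    intro r
    induction r with
    | zero => rfl
    | succ r ih =>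
      rw [Function.iterate_succ_apply', ih, Function.iterate_succ_apply']
      refine (foldl_few m I w _).trans ?_
      rw [Equiv.symm_apply_apply]
  have h1 : (fs I w)^[d + 1] (i, q) = (i, q) :=
    finProdFinEquiv.injective ((e (d + 1)).symm.trans hd)
  have e2 : ∀ r, ((fs I w)^[r] (i, q)).1 = lev^[r] i := by
    intro r
    induction r with
    | zero => rfl
    | succ r ih =>
      rw [Function.iterate_succ_apply', Function.iterate_succ_apply', ← ih]
      exact congrArg Prod.fst (hf _ _)
  have h2 : lev^[d + 1] i = i := by rw [← e2, h1]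
  have h3 : lev i = i := by
    rcases hl with ⟨t, ht⟩ | hl
    · exact const_cycle ht h2
    · have h4 : ∀ r j, j ≤ lev^[r] j := by
        intro r
        induction r with
        | zero => exact fun j => le_rfl
        | succ r ih =>
          intro j
          rw [Function.iterate_succ_apply']
          exact (ih j).trans (hl _)
      refine le_antisymm ?_ (hl i)
      have h5 := h4 d (lev i)
      rw [← Function.iterate_succ_apply lev, h2] at h5
      exact h5
  have e3 : ∀ r, (fs I w)^[r] (i, q) = (i, (fun p => (u i).foldl I.δ p)^[r] q) := by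
    intro r
    induction r with
    | zero => rfl
    | succ r ih => rw [Function.iterate_succ_apply', ih, hf, h3, Function.iterate_succ_apply']
  have h6 : (u i).foldl I.δ q = q :=
    h (u i) q d (congrArg Prod.snd ((e3 (d + 1)).symm.trans h1))
  refine (foldl_few m I w _).trans ?_
  rw [Equiv.symm_apply_apply, hf, h3, h6]

/-! ### The automata of rule systems are aperiodic -/

theorem runN_snoc (k : ℕ) (S : RS) (w : List ℕ) (a s : ℕ) :
    runN k S (w ++ [a]) s = dl k S (runN k S w s) a := by
  rw [runN_append]
  rfl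

theorem dl_base {k : ℕ} (hk : 2 ≤ k) (S : RS) {s : ℕ} (hs : s < k + 3) (a : ℕ) :
    dl k S s a < k + 3 := by
  unfold dl
  rw [if_pos hs]
  split_ifs <;> omega

theorem runN_base {k : ℕ} (hk : 2 ≤ k) (S : RS) {s : ℕ} (hs : s < k + 3) (w : List ℕ) :
    runN k S w s < k + 3 := by
  induction w using List.reverseRecOn with
  | nil => exact hs
  | append_singleton w a ih =>
    rw [runN_snoc]
    exact dl_base hk S ih a

theorem runN_13 {k : ℕ} (hk : 2 ≤ k) (S : RS) (w : List ℕ) :
    (runN k S w 1 = 1 ∧ runN k S w 3 = 3) ∨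
      ∃ c, (c = 1 ∨ c = 3) ∧ runN k S w 1 = c ∧ runN k S w 3 = c := by
  have d1 : ∀ a, dl k S 1 a = if a = 0 then 3 else 1 := by
    intro a
    unfold dl
    rw [if_pos (by omega)]
    split_ifs <;> omega
  have d3 : ∀ a, dl k S 3 a = if a = 1 then 1 else 3 := by
    intro a
    unfold dl
    rw [if_pos (by omega)]
    split_ifs <;> omega
  induction w using List.reverseRecOn with
  | nil => exact Or.inl ⟨rfl, rfl⟩
  | append_singleton w a ih =>
    rw [runN_snoc, runN_snoc]
    rcases ih with ⟨h1, h3⟩ | ⟨c, hc, h1, h3⟩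
    · rw [h1, h3, d1, d3]
      by_cases ha : a = 0
      · right
        refine ⟨3, Or.inr rfl, if_pos ha, if_neg (by omega)⟩
      · by_cases ha1 : a = 1
        · right
          exact ⟨1, Or.inl rfl, if_neg ha, if_pos ha1⟩
        · left
          exact ⟨if_neg ha, if_neg ha1⟩
    · right
      rw [h1, h3]
      refine ⟨dl k S c a, ?_, rfl, rfl⟩
      rcases hc with rfl | rfl
      · rw [d1]
        split_ifs <;> simp
      · rw [d3]
        split_ifs <;> simp

/-- a potential on the base states -/
def psi (s : ℕ) : ℕ := if s = 2 then 2 else if s = 0 ∨ s = 4 then 1 else 0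

theorem dl_values {k : ℕ} (S : RS) {s : ℕ} (hs : s < k + 3) (a : ℕ) :
    dl k S s a = s ∨ ((s = 0 ∨ s = 1 ∨ s = 4) ∧ dl k S s a = 3) ∨ (s = 2 ∧ dl k S s a = 0) ∨
      (s = 3 ∧ dl k S s a = 1) := by
  unfold dl
  rw [if_pos hs]
  split_ifs <;> simp_all

theorem psi_le {k : ℕ} (S : RS) {s : ℕ} (hs : s < k + 3) (a : ℕ) :
    psi (dl k S s a) ≤ psi s := by
  rcases dl_values S hs a with h | ⟨_, h⟩ | ⟨rfl, h⟩ | ⟨rfl, h⟩
  · rw [h]
  · rw [h]
    exact Nat.zero_le _
  · rw [h]
    decide
  · rw [h]
    decide

theorem psi_lt {k : ℕ} (S : RS) {s : ℕ} (hs : s < k + 3) (h1 : s ≠ 1) (h3 : s ≠ 3)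
    (a : ℕ) : dl k S s a = s ∨ psi (dl k S s a) < psi s := by
  rcases dl_values S hs a with h | ⟨h2, h⟩ | ⟨rfl, h⟩ | ⟨rfl, h⟩
  · exact Or.inl h
  · right
    rw [h]
    rcases h2 with rfl | rfl | rfl
    · decide
    · exact absurd rfl h1
    · decide
  · right
    rw [h]
    decide
  · exact absurd rfl h3

theorem psi_runN_le {k : ℕ} (hk : 2 ≤ k) (S : RS) {s : ℕ} (hs : s < k + 3) (w : List ℕ) :
    psi (runN k S w s) ≤ psi s := by
  induction w using List.reverseRecOn with
  | nil => exact le_rfl
  | append_singleton w a ih =>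
    rw [runN_snoc]
    exact (psi_le S (runN_base hk S hs w) a).trans ih

theorem psi_runN_lt {k : ℕ} (hk : 2 ≤ k) (S : RS) {s : ℕ} (hs : s < k + 3) (h1 : s ≠ 1)
    (h3 : s ≠ 3) (w : List ℕ) : runN k S w s = s ∨ psi (runN k S w s) < psi s := by
  induction w using List.reverseRecOn with
  | nil => exact Or.inl rfl
  | append_singleton w a ih =>
    rw [runN_snoc]
    rcases ih with h | h
    · rw [h]
      exact psi_lt S hs h1 h3 a
    · exact Or.inr ((psi_le S (runN_base hk S hs w) a).trans_lt h)

theorem iter_base {k : ℕ} (hk : 2 ≤ k) (S : RS) (w : List ℕ) (r : ℕ) {s : ℕ} (hs : s < k + 3) :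
    (runN k S w)^[r] s < k + 3 := by
  induction r with
  | zero => exact hs
  | succ r ih =>
    rw [Function.iterate_succ_apply']
    exact runN_base hk S ih w

/-- base states -/
theorem ap_base {k : ℕ} (hk : 2 ≤ k) (S : RS) (w : List ℕ) {s : ℕ} (hs : s < k + 3) (d : ℕ)
    (h : (runN k S w)^[d + 1] s = s) : runN k S w s = s := by
  by_cases h13 : s = 1 ∨ s = 3
  · rcases runN_13 hk S w with ⟨h1, h3⟩ | ⟨c, hc, h1, h3⟩
    · rcases h13 with rfl | rfl
      · exact h1
      · exact h3
    · have e : ∀ r, (runN k S w)^[r + 1] s = c := by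
        intro r
        induction r with
        | zero =>
          rcases h13 with rfl | rfl
          · exact h1
          · exact h3
        | succ r ih =>
          rw [Function.iterate_succ_apply', ih]
          rcases hc with rfl | rfl
          · exact h1
          · exact h3
      have h2 : runN k S w s = c := e 0
      rw [h2, ← e d, h]
  · rcases psi_runN_lt hk S hs (fun h => h13 (Or.inl h)) (fun h => h13 (Or.inr h)) w with h1 | h1
    · exact h1
    · exfalso
      have h2 : ∀ r x, x < k + 3 → psi ((runN k S w)^[r] x) ≤ psi x := by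
        intro r
        induction r with
        | zero => exact fun x _ => le_rfl
        | succ r ih =>
          intro x hx
          rw [Function.iterate_succ_apply']
          exact (psi_runN_le hk S (iter_base hk S w r hx) w).trans (ih x hx)
      have h3 := h2 d (runN k S w s) (runN_base hk S hs w)
      rw [← Function.iterate_succ_apply (runN k S w), h] at h3
      omega

/-- the action of a word on the states of one token -/
theorem token_form {k : ℕ} (hk : 2 ≤ k) (S : RS) (t : ℕ) (w : List ℕ) :
    (∀ v ≤ S.1, runN k S w (stt k S t v) < k + 3) ∨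
      ∃ h : ℕ → ℕ, (∀ v ≤ S.1, h v ≤ S.1 ∧ runN k S w (stt k S t v) = stt k S t (h v)) ∧
        ((∃ c, ∀ v ≤ S.1, h v = c) ∨
          (h S.1 = S.1 ∧ ((∀ v ≤ S.1, h v = v) ∨ ∃ a, ∀ v ≤ S.1, v ≠ a → h v = S.1))) := by
  induction w using List.reverseRecOn with
  | nil =>
    exact Or.inr ⟨fun v => v, fun v hv => ⟨hv, rfl⟩, Or.inr ⟨rfl, Or.inl fun v _ => rfl⟩⟩
  | append_singleton w a ih =>
    rcases ih with hb | ⟨h, h1, h2⟩
    · left
      intro v hv
      rw [runN_snoc]
      exact dl_base hk S (hb v hv) a
    · rcases a with _ | _ | i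
      · right
        refine ⟨fun _ => min (S.2.1.getD t 0) S.1, fun v hv => ⟨min_le_right _ _, ?_⟩,
          Or.inl ⟨_, fun v _ => rfl⟩⟩
        rw [runN_snoc, (h1 v hv).2, dl_reset (h1 v hv).1]
      · left
        intro v hv
        rw [runN_snoc, (h1 v hv).2, zero_add, dl_exit (h1 v hv).1]
        split_ifs <;> omega
      · right
        refine ⟨fun v => min (tok S.1 (S.2.2.1.getD i []) t (h v)) S.1,
          fun v hv => ⟨min_le_right _ _, ?_⟩, ?_⟩
        · rw [runN_snoc, (h1 v hv).2, show i + 1 + 1 = 2 + i by omega, dl_rule (h1 v hv).1]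
        · have hV : min (tok S.1 (S.2.2.1.getD i []) t S.1) S.1 = S.1 := by
            unfold tok
            rw [if_pos rfl]
            exact min_self _
          rcases h2 with ⟨c, hc⟩ | ⟨h3, h4⟩
          · left
            exact ⟨min (tok S.1 (S.2.2.1.getD i []) t c) S.1, fun v hv => by
              simp only [hc v hv]⟩
          · right
            refine ⟨by simp only [h3, hV], ?_⟩
            rcases h4 with h4 | ⟨b, hb⟩
            · cases hy : ((S.2.2.1.getD i []).filter fun y => decide (y.1 = t)).head? with
              | none =>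
                left
                intro v hv
                simp only [h4 v hv]
                unfold tok
                rw [hy]
                split_ifs with h5
                · rw [h5]
                  exact min_self _
                · exact min_eq_left hv
              | some y =>
                right
                refine ⟨y.2.1, fun v hv hne => ?_⟩
                simp only [h4 v hv]
                unfold tok
                rw [hy]
                simp only [if_neg hne, ite_self]
                exact min_self _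
            · right
              refine ⟨b, fun v hv hne => ?_⟩
              simp only [hb v hv hne, hV]

theorem stt_inj {k : ℕ} {S : RS} {t v v' : ℕ} (h : stt k S t v = stt k S t v') : v = v' := by
  unfold stt at h
  omega

/-- token states -/
theorem ap_token {k : ℕ} (hk : 2 ≤ k) (S : RS) (w : List ℕ) {t v : ℕ} (hv : v ≤ S.1) (d : ℕ)
    (h : (runN k S w)^[d + 1] (stt k S t v) = stt k S t v) :
    runN k S w (stt k S t v) = stt k S t v := by
  rcases token_form hk S t w with hb | ⟨g, h1, h2⟩
  · exfalso
    have h3 := iter_base hk S w d (hb v hv)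
    rw [← Function.iterate_succ_apply (runN k S w), h] at h3
    exact stt_not_lt h3
  · have e : ∀ r x, x ≤ S.1 → g^[r] x ≤ S.1 ∧
        (runN k S w)^[r] (stt k S t x) = stt k S t (g^[r] x) := by
      intro r
      induction r with
      | zero => exact fun x hx => ⟨hx, rfl⟩
      | succ r ih =>
        intro x hx
        rw [Function.iterate_succ_apply', Function.iterate_succ_apply', (ih x hx).2]
        exact h1 _ (ih x hx).1
    have h3 : g^[d + 1] v = v := stt_inj (((e (d + 1) v hv).2).symm.trans h)
    rw [(h1 v hv).2]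
    congr 1
    rcases h2 with ⟨c, hc⟩ | ⟨h4, h5 | ⟨a, ha⟩⟩
    · rw [Function.iterate_succ_apply'] at h3
      rw [hc _ (e d v hv).1] at h3
      rw [hc v hv, h3]
    · exact h5 v hv
    · have hfix : ∀ r, g^[r] S.1 = S.1 := by
        intro r
        induction r with
        | zero => rfl
        | succ r ih => rw [Function.iterate_succ_apply', ih, h4]
      by_cases hva : v = a
      · by_cases hga : g v = a
        · rw [hga, hva]
        · rcases d with _ | d
          · exact h3
          · rw [Function.iterate_succ_apply, Function.iterate_succ_apply,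
              ha (g v) (h1 v hv).1 hga, hfix] at h3
            rw [← h3, h4]
      · rw [Function.iterate_succ_apply, ha v hv hva, hfix] at h3
        rw [← h3, h4]

theorem ap_toInst {k : ℕ} (hk : 2 ≤ k) (S : RS) : Aperiodic (toInst k S) := by
  intro w q d hd
  have e : ∀ r, ((fun p => w.foldl (toInst k S).δ p)^[r] q).val =
      (runN k S (w.map Fin.val))^[r] q.val := by
    intro r
    induction r with
    | zero => rfl
    | succ r ih =>
      rw [Function.iterate_succ_apply', Function.iterate_succ_apply', ← ih]
      exact foldl_toInst hk S w _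
  have h1 : (runN k S (w.map Fin.val))^[d + 1] q.val = q.val := by rw [← e, hd]
  refine Fin.ext ?_
  rw [foldl_toInst hk]
  by_cases hq : q.val < k + 3
  · exact ap_base hk S _ hq d h1
  · obtain ⟨t, v, _, hv, hs⟩ := exists_stt q.2 hq
    rw [hs] at h1 ⊢
    exact ap_token hk S _ hv d h1

/-- strongly connected synchronizing aperiodic automata with exactly `m` letters -/
def Cls (m : ℕ) (I : Inst) : Prop := I.m = m ∧ StrConn I ∧ Sync I ∧ Aperiodic I

/-- `PSPACE`-hardness of REACHABLE SUBSET_k on a class of instances: all languages of `PSPACE`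
reduce to it in polynomial time by a reduction whose values are codes of instances of the class. -/
def HardOn (k : ℕ) (C : Inst → Prop) : Prop :=
  ∀ L : Set (List Bool), InPSPACE L → ∃ f : List Bool → List Bool, PolyTime f ∧
    ∀ x, ∃ I : Inst, bits I = f x ∧ C I ∧ (x ∈ L ↔ ReachableSubset k I)

/-- Some polynomial-time algorithm is correct for REACHABLE SUBSET_k on all instances of a
class. -/
def PolyOn (k : ℕ) (C : Inst → Prop) : Prop :=
  ∃ V : List Bool → List Bool, PolyTime V ∧ ∀ I : Inst, C I → (ReachableSubset k I ↔ V (bits I) = [true])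

/-- Hardness for strongly connected synchronizing aperiodic automata with `m ≥ 2` letters. -/
theorem hardAp {k m : ℕ} (hk : 2 ≤ k) (hm : 2 ≤ m) :
    HardOn k (Cls m) := by
  intro L hL
  obtain ⟨S, hS, hU, hwf, hiff⟩ := pspace_rules hL
  refine ⟨fun x => bits (few m (addC (toInst k (S x)))), ?_, ?_⟩
  · have h1 : PC (bits : List Bool → List Bool) (bits : Inst → List Bool)
        (fun x => few m (addC (toInst k (S x)))) :=
      (poly_few m).comp (poly_addC.comp (poly_toInst k hS hU))
    have h2 : PC (fun x : List Bool => x) (bits : List Bool → List Bool) (fun x => x) := PC.ofBits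
    obtain ⟨c, p, h⟩ := PC.comp h1 h2
    exact PC.toPolyTime ⟨c, p, h⟩
  · intro x
    refine ⟨_, rfl, ⟨rfl, ?_⟩, ?_⟩
    · have hn : 0 < (few m (addC (toInst k (S x)))).n :=
        Nat.mul_pos (Nat.succ_pos _) (nst_pos k (S x))
      have h3 := (sc_iff hn).2 (fun t p q => by
        obtain ⟨w, hw⟩ := few_addC_const hm (toInst k (S x)) t
        exact ⟨w, hw p, hw q⟩)
      exact ⟨h3.1, h3.2, ap_few (ap_addC (ap_toInst hk (S x))) m⟩
    · rw [hiff, ← toInst_iff hk (hwf x), ← addC_iff hk, ← few_iff hm]
      exact ⟨fun h => h.2, fun h => ⟨rfl, h⟩⟩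

/-- On a hard class a polynomial-time algorithm exists iff `P = PSPACE`. -/
theorem polyOn_iff {k : ℕ} {C : Inst → Prop} (h : HardOn k C) :
    PolyOn k C ↔ ∀ L : Set (List Bool), InPSPACE L → InP L := by
  constructor
  · rintro ⟨V, hV, hV'⟩ L hL
    obtain ⟨f, hf, hf'⟩ := h L hL
    refine ⟨fun x => V (f x), H642R2.TMSim.polyTime_comp hV hf, fun x => ?_⟩
    obtain ⟨I, h1, h2, h3⟩ := hf' x
    rw [h3, hV' I h2, h1]
  · intro hP
    obtain ⟨V, hV, hV'⟩ := hP _ (Pool.Agent.H505R3.RS.member k)
    refine ⟨V, hV, fun I _ => ?_⟩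
    rw [← hV', bits_mem_lang]

end Pool.Agent.Y646.RB
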