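import Pool.Agent.Y646.RB.Pairs

/-!
# Strongly connected synchronizing automata with a fixed number of letters
-/

namespace Pool.Agent.Y646.RB

open Pool.Agent.NPC Pool.Agent.H623R2.PS Pool.Agent.H505R3.RS

set_option autoImplicit false

/-- every state can be sent to every state -/
def StrConn (I : Inst) : Prop := ∀ p q : Fin I.n, ∃ w : List (Fin I.m), w.foldl I.δ p = q

/-- some word sends all states to one state -/
def Sync (I : Inst) : Prop := ∃ (w : List (Fin I.m)) (q : Fin I.n), ∀ p : Fin I.n, w.foldl I.δ p = q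

/-- REACHABLE SUBSET_k for strongly connected synchronizing automata with exactly `m` letters -/
def ReachSC (k m : ℕ) (I : Inst) : Prop :=
  (I.m = m ∧ StrConn I ∧ Sync I) ∧ ReachableSubset k I

theorem sc_iff {I : Inst} (hn : 0 < I.n) : StrConn I ∧ Sync I ↔
    ∀ t p q : Fin I.n, ∃ w : List (Fin I.m), w.foldl I.δ p = t ∧ w.foldl I.δ q = t := by
  constructor
  · rintro ⟨h1, w, s, h2⟩ t p q
    obtain ⟨w', hw'⟩ := h1 s t
    refine ⟨w ++ w', ?_, ?_⟩
    · rw [List.foldl_append, h2, hw']
    · rw [List.foldl_append, h2, hw']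
  · intro h
    refine ⟨fun p q => ?_, ?_⟩
    · obtain ⟨w, hw, _⟩ := h q p p
      exact ⟨w, hw⟩
    · obtain ⟨w, hw⟩ := greedy I ⟨0, hn⟩ (h _)
      exact ⟨w, _, hw⟩

/-- the test for the class -/
def testC (m : ℕ) (c : Code) : Bool :=
  decide (c.2.1 = m) && (List.range c.2.2.2.length).all fun t => testP c t

theorem poly_testC (m : ℕ) : NPC.Poly (testC m) := by
  have hw : UPoly (fun c : Code => c.2.2.2.length) := UPoly.length (by fun_prop)
  unfold testC
  refine NPC.Poly.and (NPC.Poly.decide_eq (by fun_prop) (NPC.Poly.const m)) ?_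
  exact NPC.Poly.all (l := fun c : Code => List.range c.2.2.2.length) (p := fun c t => testP c t)
    hw.range (poly_testP (NPC.Poly.fst NPC.Poly.id) (NPC.Poly.snd NPC.Poly.id))

theorem testC_iff {m : ℕ} {I : Inst} (hn : 0 < I.n) :
    testC m I.code = true ↔ I.m = m ∧ StrConn I ∧ Sync I := by
  unfold testC
  rw [Bool.and_eq_true, decide_eq_true_eq, List.all_eq_true, code_len, sc_iff hn]
  refine and_congr Iff.rfl ?_
  constructor
  · intro h t p q
    exact (testP_iff I t).1 (h t.val (List.mem_range.2 t.2)) p q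
  · intro h t ht
    rw [List.mem_range] at ht
    exact (testP_iff I ⟨t, ht⟩).2 (h _)

/-- The restricted problem is in `PSPACE`. -/
theorem memberSC {k : ℕ} (hk : 1 ≤ k) (m : ℕ) : InPSPACE (lang (ReachSC k m)) := by
  refine member_of (poly_testC m) (Φ := fun I => I.m = m ∧ StrConn I ∧ Sync I) ?_
  intro I hI
  refine testC_iff ?_
  have h1 := Finset.card_le_univ I.P
  rw [Fintype.card_fin] at h1
  omega

/-! ### Adding constant letters -/

/-- all constant maps are added as letters -/
abbrev addC (I : Inst) : Inst where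
  n := I.n
  m := I.m + I.n
  δ := fun q a => if h : a.val < I.m then I.δ q ⟨a.val, h⟩ else ⟨a.val - I.m, by omega⟩
  P := I.P

theorem addC_cases (I : Inst) (w : List (Fin (I.m + I.n))) :
    (∃ w' : List (Fin I.m), ∀ q, w.foldl (addC I).δ q = w'.foldl I.δ q) ∨
      ∃ t, ∀ q, w.foldl (addC I).δ q = t := by
  induction w using List.reverseRecOn with
  | nil => exact Or.inl ⟨[], fun q => rfl⟩
  | append_singleton w a ih =>
    by_cases ha : a.val < I.m
    · rcases ih with ⟨w', hw'⟩ | ⟨t, ht⟩
      · refine Or.inl ⟨w' ++ [⟨a.val, ha⟩], fun q => ?_⟩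
        rw [List.foldl_append, List.foldl_append, hw']
        exact dif_pos ha
      · refine Or.inr ⟨(addC I).δ t a, fun q => ?_⟩
        rw [List.foldl_append, ht]
        rfl
    · have h3 : a.val - I.m < I.n := by omega
      refine Or.inr ⟨⟨a.val - I.m, h3⟩, fun q => ?_⟩
      rw [List.foldl_append]
      exact dif_neg ha

theorem addC_lift (I : Inst) (w : List (Fin I.m)) (q : Fin I.n) :
    (w.map (Fin.castAdd I.n)).foldl (addC I).δ q = w.foldl I.δ q := by
  induction w generalizing q with
  | nil => rfl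
  | cons a w ih =>
    rw [List.map_cons, List.foldl_cons, List.foldl_cons, ih]
    congr 1
    exact dif_pos a.2

theorem addC_iff {k : ℕ} (hk : 2 ≤ k) (I : Inst) :
    ReachableSubset k (addC I) ↔ ReachableSubset k I := by
  unfold ReachableSubset
  refine and_congr_right fun hP => ?_
  have hP' : I.P.card = k := hP
  constructor
  · rintro ⟨w, hw⟩
    rcases addC_cases I w with ⟨w', hw'⟩ | ⟨t, ht⟩
    · refine ⟨w', ?_⟩
      refine Eq.trans ?_ hw
      unfold Inst.image
      exact congrArg (fun f => Finset.univ.image f) (funext fun q => (hw' q).symm)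
    · exfalso
      have h1 : I.P.card ≤ 1 := by
        rw [Finset.card_le_one]
        intro a ha b hb
        have e : ∀ x ∈ I.P, x = t := by
          intro x hx
          have hx' : x ∈ (addC I).image w := by rw [hw]; exact hx
          obtain ⟨q0, rfl⟩ := mem_image.1 hx'
          exact ht q0
        rw [e a ha, e b hb]
      omega
  · rintro ⟨w, hw⟩
    refine ⟨w.map (Fin.castAdd I.n), ?_⟩
    refine Eq.trans ?_ hw
    unfold Inst.image
    exact congrArg (fun f => Finset.univ.image f) (funext fun q => addC_lift I w q)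

theorem few_addC_const {m : ℕ} (hm : 2 ≤ m) (I : Inst) (t : Fin (few m (addC I)).n) :
    ∃ w : List (Fin m), ∀ s, w.foldl (few m (addC I)).δ s = t := by
  obtain ⟨⟨i, q⟩, rfl⟩ := finProdFinEquiv.surjective t
  set z : Fin m := ⟨0, by omega⟩ with hz
  set o : Fin m := ⟨1, by omega⟩ with ho
  have hq : I.m + q.val < I.m + I.n := Nat.add_lt_add_left q.2 _
  refine ⟨o :: (enc1 (addC I) z o ⟨I.m + q.val, hq⟩ ++ List.replicate i.val z), fun s => ?_⟩
  refine (foldl_few m (addC I) _ s).trans ?_
  congr 1
  have h1 : fs (addC I) (o :: (enc1 (addC I) z o ⟨I.m + q.val, hq⟩ ++ List.replicate i.val z))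
      (finProdFinEquiv.symm s) = fs (addC I) (enc1 (addC I) z o ⟨I.m + q.val, hq⟩ ++
        List.replicate i.val z) (stepP (addC I) 1 (finProdFinEquiv.symm s)) := rfl
  rw [h1]
  unfold stepP
  rw [if_pos rfl, fs_append, fs_enc1 (addC I) rfl rfl]
  have h2 : ∀ q' : Fin I.n, (addC I).δ q' ⟨I.m + q.val, hq⟩ = q := by
    intro q'
    show (if h : I.m + q.val < I.m then I.δ q' ⟨I.m + q.val, h⟩ else
      (⟨I.m + q.val - I.m, by omega⟩ : Fin I.n)) = q
    rw [dif_neg (by omega)]
    exact Fin.ext (by simp)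
  rw [h2, fs_replicate (addC I) z rfl q i.val (Nat.lt_succ_iff.1 i.2)]

theorem few_addC_iff {k m : ℕ} (hk : 2 ≤ k) (hm : 2 ≤ m) (I : Inst) :
    ReachSC k m (few m (addC I)) ↔ ReachableSubset k I := by
  constructor
  · rintro ⟨⟨h1, _⟩, h2⟩
    exact (addC_iff hk I).1 ((few_iff hm (addC I)).1 ⟨h1, h2⟩)
  · intro h
    have h1 := (few_iff (m := m) hm (addC I)).2 ((addC_iff hk I).2 h)
    refine ⟨⟨rfl, ?_⟩, h1.2⟩
    have hn : 0 < (few m (addC I)).n := by
      have h2 := Finset.card_le_univ (few m (addC I)).P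
      rw [Fintype.card_fin, h1.2.1] at h2
      omega
    rw [sc_iff hn]
    intro t p q
    obtain ⟨w, hw⟩ := few_addC_const hm I t
    exact ⟨w, hw p, hw q⟩

theorem poly_addC : NPC.Poly (fun I : Inst => addC I) := by
  have hN : UPoly (fun I : Inst => I.m + I.n) := UPoly.add uPoly_m uPoly_n
  have h1 : NPC.Poly (fun I : Inst => (List.range (I.m + I.n)).map fun a =>
      (List.range I.n).map fun q =>
        if a < I.m then (I.code.2.2.1.getD a []).getD q 0 else a - I.m) := by
    refine NPC.Poly.map (F := fun (I : Inst) a => (List.range I.n).map fun q =>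
      if a < I.m then (I.code.2.2.1.getD a []).getD q 0 else a - I.m) hN.range ?_
    have hx : NPC.Poly (fun p : Inst × ℕ => p.1) := NPC.Poly.fst NPC.Poly.id
    refine NPC.Poly.map (F := fun (p : Inst × ℕ) q =>
      if p.2 < p.1.m then (p.1.code.2.2.1.getD p.2 []).getD q 0 else p.2 - p.1.m)
      (uPoly_n.comp hx).range ?_
    have hx : NPC.Poly (fun p : (Inst × ℕ) × ℕ => p.1.1) := NPC.Poly.fst (NPC.Poly.fst NPC.Poly.id)
    have ha : NPC.Poly (fun p : (Inst × ℕ) × ℕ => p.1.2) := NPC.Poly.snd (NPC.Poly.fst NPC.Poly.id)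
    have hs : NPC.Poly (fun p : (Inst × ℕ) × ℕ => p.2) := NPC.Poly.snd NPC.Poly.id
    have hc := poly_code.comp hx
    have hm := uPoly_m.toPoly.comp hx
    exact NPC.Poly.ite (NPC.Poly.decide_lt ha hm)
      (NPC.Poly.getD (NPC.Poly.getD (NPC.Poly.fst (NPC.Poly.snd (NPC.Poly.snd hc))) ha
        (NPC.Poly.const [])) hs (NPC.Poly.const 0)) (NPC.Poly.sub ha hm)
  have h2 : NPC.Poly (fun I : Inst => I.code.2.2.2) :=
    NPC.Poly.snd (NPC.Poly.snd (NPC.Poly.snd poly_code))
  have h3 := NPC.Poly.pair uPoly_n.toPoly (NPC.Poly.pair hN.toPoly (NPC.Poly.pair h1 h2))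
  refine NPC.Poly.of_toT (h3.toT'.congr fun I => ?_)
  show toT _ = toT (addC I).code
  congr 1
  have e1 : ∀ a : Fin (I.m + I.n),
      ((List.finRange I.n).map fun q => ((addC I).δ q a).val) =
      (List.range I.n).map fun q =>
        if a.val < I.m then (I.code.2.2.1.getD a.val []).getD q 0 else a.val - I.m := by
    intro a
    rw [← finRange_map_val]
    refine List.map_congr_left ?_
    intro q _
    by_cases ha : a.val < I.m
    · rw [if_pos ha]
      have h4 := code_getD I ⟨a.val, ha⟩ q
      simp only at h4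
      rw [h4]
      exact congrArg Fin.val (dif_pos ha)
    · rw [if_neg ha]
      exact congrArg Fin.val (dif_neg ha)
  have e2 := finRange_map_val (I.m + I.n) (fun a =>
    (List.range I.n).map fun q =>
      if a < I.m then (I.code.2.2.1.getD a []).getD q 0 else a - I.m)
  have e3 : (addC I).code = (I.n, I.m + I.n, (List.finRange (I.m + I.n)).map fun a =>
      (List.finRange I.n).map fun q => ((addC I).δ q a).val, I.code.2.2.2) := rfl
  rw [e3]
  simp only [e1]
  exact congrArg₂ Prod.mk rfl (congrArg₂ Prod.mk rfl (congrArg₂ Prod.mk e2.symm rfl))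

/-- REACHABLE SUBSET_k is `PSPACE`-hard for strongly connected synchronizing automata with `m`
letters, for every `k ≥ 2` and `m ≥ 2`. -/
theorem hardSC {k m : ℕ} (hk : 2 ≤ k) (hm : 2 ≤ m) : PSPACEHard (lang (ReachSC k m)) := by
  intro L hL
  obtain ⟨S, hS, hU, hwf, hiff⟩ := pspace_rules hL
  refine ⟨fun x => bits (few m (addC (toInst k (S x)))), ?_, ?_⟩
  · have h1 : PC (bits : List Bool → List Bool) (bits : Inst → List Bool)
        (fun x => few m (addC (toInst k (S x)))) :=
      (poly_few m).comp (poly_addC.comp (poly_toInst k hS hU))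
    have h2 : PC (fun x : List Bool => x) (bits : List Bool → List Bool) (fun x => x) := PC.ofBits
    obtain ⟨c, p, h⟩ := PC.comp h1 h2
    exact PC.toPolyTime ⟨c, p, h⟩
  · intro x
    rw [hiff, ← toInst_iff hk (hwf x), ← few_addC_iff hk hm]
    unfold lang
    constructor
    · intro h
      exact ⟨_, rfl, h⟩
    · rintro ⟨I, hI, h⟩
      have : I = few m (addC (toInst k (S x))) := TEnc.inj (T.enc_injective hI)
      rwa [this] at h

end Pool.Agent.Y646.RB
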