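import Pool.Agent.H505R3.RS.Mem
import Pool.Agent.H623R2.PS.TM

/-!
# REACHABLE SUBSET_k for automata with a fixed number of letters: the reduction

An automaton with letters `a_0, …, a_{m-1}` is turned into one with few letters: a state is a pair
(level, old state) with level at most `m`; the letter `1` applies the letter of the level (the
identity at level `m`) and returns to level `0`, all other letters increase the level.
-/

namespace Pool.Agent.Y646.RB

open Pool.Agent.NPC Pool.Agent.H623R2.PS

set_option autoImplicit false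

/-- REACHABLE SUBSET_k for automata with exactly `m` letters -/
def ReachLetters (k m : ℕ) (I : Inst) : Prop := I.m = m ∧ ReachableSubset k I

/-- one step on pairs (level, old state) -/
def stepP (I : Inst) (a : ℕ) (p : Fin (I.m + 1) × Fin I.n) : Fin (I.m + 1) × Fin I.n :=
  if a = 1 then (0, if h : p.1.val < I.m then I.δ p.2 ⟨p.1.val, h⟩ else p.2)
  else (⟨min (p.1.val + 1) I.m, by omega⟩, p.2)

/-- the automaton with `m` letters -/
abbrev few (m : ℕ) (I : Inst) : Inst where
  n := (I.m + 1) * I.n
  m := m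
  δ := fun s a => finProdFinEquiv (stepP I a.val (finProdFinEquiv.symm s))
  P := I.P.map ⟨fun q => finProdFinEquiv ((0 : Fin (I.m + 1)), q), fun q q' h => by
    have := finProdFinEquiv.injective h
    exact (Prod.mk.inj this).2⟩

/-- several steps -/
def fs (I : Inst) {m : ℕ} (w : List (Fin m)) (p : Fin (I.m + 1) × Fin I.n) :
    Fin (I.m + 1) × Fin I.n :=
  w.foldl (fun p a => stepP I a.val p) p

theorem foldl_few (m : ℕ) (I : Inst) (w : List (Fin m)) (s : Fin ((I.m + 1) * I.n)) :
    w.foldl (few m I).δ s = finProdFinEquiv (fs I w (finProdFinEquiv.symm s)) := by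
  induction w generalizing s with
  | nil => exact (finProdFinEquiv.apply_symm_apply s).symm
  | cons a w ih =>
    refine (ih _).trans ?_
    unfold fs
    rw [List.foldl_cons]
    congr 2
    exact finProdFinEquiv.symm_apply_apply _

theorem mem_image_few {m : ℕ} {I : Inst} {w : List (Fin m)} {p : Fin (I.m + 1) × Fin I.n} :
    finProdFinEquiv p ∈ (few m I).image w ↔ ∃ p0, fs I w p0 = p := by
  unfold Inst.image
  rw [Finset.mem_image]
  constructor
  · rintro ⟨s, _, h⟩
    have h1 := foldl_few m I w s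
    rw [h1] at h
    exact ⟨_, finProdFinEquiv.injective h⟩
  · rintro ⟨p0, rfl⟩
    refine ⟨finProdFinEquiv p0, Finset.mem_univ _, ?_⟩
    have h1 := foldl_few m I w (finProdFinEquiv p0)
    rw [Equiv.symm_apply_apply] at h1
    exact h1

theorem mem_P_few {m : ℕ} {I : Inst} {p : Fin (I.m + 1) × Fin I.n} :
    finProdFinEquiv p ∈ (few m I).P ↔ p.1 = 0 ∧ p.2 ∈ I.P := by
  unfold few
  simp only [Finset.mem_map, Function.Embedding.coeFn_mk]
  constructor
  · rintro ⟨q, hq, h⟩
    have := finProdFinEquiv.injective h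
    subst this
    exact ⟨rfl, hq⟩
  · rintro ⟨h1, h2⟩
    exact ⟨p.2, h2, by
      show finProdFinEquiv ((0 : Fin (I.m + 1)), p.2) = finProdFinEquiv p
      rw [← h1]⟩

theorem fs_snoc (I : Inst) {m : ℕ} (w : List (Fin m)) (a : Fin m) (p : Fin (I.m + 1) × Fin I.n) :
    fs I (w ++ [a]) p = stepP I a.val (fs I w p) := by
  simp [fs]

theorem fs_append (I : Inst) {m : ℕ} (w w' : List (Fin m)) (p : Fin (I.m + 1) × Fin I.n) :
    fs I (w ++ w') p = fs I w' (fs I w p) := by
  simp [fs]

theorem mem_image {I : Inst} {w : List (Fin I.m)} {q : Fin I.n} :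
    q ∈ I.image w ↔ ∃ q0, w.foldl I.δ q0 = q := by
  simp [Inst.image]

/-- the reachable sets of pairs -/
theorem reach_cases (I : Inst) {m : ℕ} (w : List (Fin m)) :
    (∀ q, ∃ p0, fs I w p0 = (Fin.last I.m, q)) ∨
      ∃ (w2 : List (Fin I.m)) (i : Fin (I.m + 1)),
        ∀ p, (∃ p0, fs I w p0 = p) ↔ p.1 = i ∧ p.2 ∈ I.image w2 := by
  induction w using List.reverseRecOn with
  | nil => exact Or.inl fun q => ⟨(Fin.last I.m, q), rfl⟩
  | append_singleton w a ih =>
    rcases ih with ih | ⟨w2, i, ih⟩
    · by_cases ha : a.val = 1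
      · refine Or.inr ⟨[], 0, fun p => ?_⟩
        constructor
        · rintro ⟨p0, rfl⟩
          rw [fs_snoc]
          refine ⟨?_, mem_image.2 ⟨_, rfl⟩⟩
          simp [stepP, ha]
        · rintro ⟨h1, _⟩
          obtain ⟨p0, h0⟩ := ih p.2
          refine ⟨p0, ?_⟩
          rw [fs_snoc, h0]
          unfold stepP
          rw [if_pos ha, dif_neg (by simp)]
          exact Prod.ext h1.symm rfl
      · refine Or.inl fun q => ?_
        obtain ⟨p0, h0⟩ := ih q
        refine ⟨p0, ?_⟩
        rw [fs_snoc, h0]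
        unfold stepP
        rw [if_neg ha]
        refine Prod.ext (Fin.ext ?_) rfl
        simp
    · right
      by_cases ha : a.val = 1
      · by_cases hi : i.val < I.m
        · refine ⟨w2 ++ [⟨i.val, hi⟩], 0, fun p => ?_⟩
          constructor
          · rintro ⟨p0, rfl⟩
            obtain ⟨h1, h2⟩ := (ih _).1 ⟨p0, rfl⟩
            obtain ⟨q0, hq0⟩ := mem_image.1 h2
            rw [fs_snoc]
            unfold stepP
            rw [if_pos ha]
            refine ⟨rfl, mem_image.2 ⟨q0, ?_⟩⟩
            have h3 : (fs I w p0).1.val < I.m := by rw [h1]; exact hi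
            simp only [dif_pos h3]
            rw [List.foldl_append, hq0]
            simp only [List.foldl_cons, List.foldl_nil]
            congr 1
            exact Fin.ext (by simp [h1])
          · rintro ⟨h1, h2⟩
            obtain ⟨q0, hq0⟩ := mem_image.1 h2
            rw [List.foldl_append] at hq0
            simp only [List.foldl_cons, List.foldl_nil] at hq0
            obtain ⟨p0, hp0⟩ := (ih (i, w2.foldl I.δ q0)).2 ⟨rfl, mem_image.2 ⟨q0, rfl⟩⟩
            refine ⟨p0, ?_⟩
            rw [fs_snoc, hp0]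
            unfold stepP
            rw [if_pos ha]
            refine Prod.ext h1.symm ?_
            simp only [dif_pos hi]
            exact hq0
        · refine ⟨w2, 0, fun p => ?_⟩
          constructor
          · rintro ⟨p0, rfl⟩
            obtain ⟨h1, h2⟩ := (ih _).1 ⟨p0, rfl⟩
            rw [fs_snoc]
            unfold stepP
            rw [if_pos ha]
            refine ⟨rfl, ?_⟩
            have h3 : ¬ (fs I w p0).1.val < I.m := by rw [h1]; exact hi
            simp only [dif_neg h3]
            exact h2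
          · rintro ⟨h1, h2⟩
            obtain ⟨p0, hp0⟩ := (ih (i, p.2)).2 ⟨rfl, h2⟩
            refine ⟨p0, ?_⟩
            rw [fs_snoc, hp0]
            unfold stepP
            rw [if_pos ha]
            refine Prod.ext h1.symm ?_
            simp only [dif_neg hi]
      · refine ⟨w2, ⟨min (i.val + 1) I.m, by omega⟩, fun p => ?_⟩
        constructor
        · rintro ⟨p0, rfl⟩
          obtain ⟨h1, h2⟩ := (ih _).1 ⟨p0, rfl⟩
          rw [fs_snoc]
          unfold stepP
          rw [if_neg ha]
          exact ⟨Fin.ext (by simp [h1]), h2⟩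
        · rintro ⟨h1, h2⟩
          obtain ⟨p0, hp0⟩ := (ih (i, p.2)).2 ⟨rfl, h2⟩
          refine ⟨p0, ?_⟩
          rw [fs_snoc, hp0]
          unfold stepP
          rw [if_neg ha]
          exact Prod.ext h1.symm rfl

theorem fs_replicate (I : Inst) {m : ℕ} (z : Fin m) (hz : z.val = 0) (q : Fin I.n) :
    ∀ (j : ℕ) (hj : j ≤ I.m),
      fs I (List.replicate j z) (0, q) = (⟨j, Nat.lt_succ_of_le hj⟩, q)
  | 0, _ => rfl
  | j + 1, hj => by
    rw [List.replicate_succ', fs_snoc, fs_replicate I z hz q j (by omega)]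
    unfold stepP
    rw [if_neg (by omega)]
    refine Prod.ext (Fin.ext ?_) rfl
    simp only
    omega

/-- the word for one old letter -/
def enc1 (I : Inst) {m : ℕ} (z o : Fin m) (a : Fin I.m) : List (Fin m) :=
  List.replicate a.val z ++ [o]

theorem fs_enc1 (I : Inst) {m : ℕ} {z o : Fin m} (hz : z.val = 0) (ho : o.val = 1) (a : Fin I.m)
    (q : Fin I.n) : fs I (enc1 I z o a) (0, q) = (0, I.δ q a) := by
  unfold enc1
  rw [fs_snoc, fs_replicate I z hz q a.val a.2.le]
  unfold stepP
  rw [if_pos ho]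
  simp only [dif_pos a.2]

theorem fs_enc (I : Inst) {m : ℕ} {z o : Fin m} (hz : z.val = 0) (ho : o.val = 1)
    (w : List (Fin I.m)) (q : Fin I.n) :
    fs I (w.flatMap (enc1 I z o)) (0, q) = (0, w.foldl I.δ q) := by
  induction w generalizing q with
  | nil => rfl
  | cons a w ih => rw [List.flatMap_cons, fs_append, fs_enc1 I hz ho, ih]; rfl

theorem few_reach {m : ℕ} (hm : 2 ≤ m) (I : Inst) :
    (∃ w, (few m I).image w = (few m I).P) ↔ ∃ w, I.image w = I.P := by
  constructor
  · rintro ⟨w, hw⟩
    have key : ∀ p : Fin (I.m + 1) × Fin I.n, (∃ p0, fs I w p0 = p) ↔ p.1 = 0 ∧ p.2 ∈ I.P := by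
      intro p
      rw [← mem_P_few (m := m), ← hw]
      exact mem_image_few.symm
    rcases reach_cases I w with h | ⟨w2, i, h⟩
    · refine ⟨[], ?_⟩
      ext q
      constructor
      · intro _
        exact ((key _).1 (h q)).2
      · intro _
        exact mem_image.2 ⟨q, rfl⟩
    · refine ⟨w2, ?_⟩
      ext q
      constructor
      · intro hq
        exact ((key (i, q)).1 ((h (i, q)).2 ⟨rfl, hq⟩)).2
      · intro hq
        exact ((h (0, q)).1 ((key (0, q)).2 ⟨rfl, hq⟩)).2
  · rintro ⟨w, hw⟩
    set z : Fin m := ⟨0, by omega⟩ with hz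
    set o : Fin m := ⟨1, by omega⟩ with ho
    refine ⟨o :: w.flatMap (enc1 I z o), ?_⟩
    have key : ∀ p : Fin (I.m + 1) × Fin I.n,
        (∃ p0, fs I (o :: w.flatMap (enc1 I z o)) p0 = p) ↔ p.1 = 0 ∧ p.2 ∈ I.P := by
      intro p
      have h1 : ∀ p0, fs I (o :: w.flatMap (enc1 I z o)) p0 =
          fs I (w.flatMap (enc1 I z o)) (stepP I 1 p0) := fun p0 => rfl
      constructor
      · rintro ⟨p0, rfl⟩
        rw [h1]
        unfold stepP
        rw [if_pos rfl, fs_enc I rfl rfl]
        refine ⟨rfl, ?_⟩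
        rw [← hw]
        exact mem_image.2 ⟨_, rfl⟩
      · rintro ⟨h2, h3⟩
        rw [← hw] at h3
        obtain ⟨q0, hq0⟩ := mem_image.1 h3
        refine ⟨(Fin.last I.m, q0), ?_⟩
        rw [h1]
        unfold stepP
        rw [if_pos rfl, dif_neg (by simp), fs_enc I rfl rfl]
        exact Prod.ext h2.symm hq0
    ext s
    obtain ⟨p, rfl⟩ := finProdFinEquiv.surjective s
    exact (mem_image_few (m := m) (I := I)).trans ((key p).trans mem_P_few.symm)

theorem few_iff {k m : ℕ} (hm : 2 ≤ m) (I : Inst) :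
    ReachLetters k m (few m I) ↔ ReachableSubset k I := by
  unfold ReachLetters ReachableSubset
  rw [few_reach hm]
  have h1 : (few m I).P.card = I.P.card := Finset.card_map _
  rw [h1]
  exact ⟨fun h => h.2, fun h => ⟨rfl, h⟩⟩

/-! ### The reduction is polynomial -/

/-- the new transition table, on numbers -/
def sv (c : Pool.Agent.H505R3.RS.Code) (n m a s : ℕ) : ℕ :=
  if a = 1 then (if s / n < m then (c.2.2.1.getD (s / n) []).getD (s % n) 0 else s % n)
  else s % n + n * min (s / n + 1) m

theorem code_getD (I : Inst) (a : Fin I.m) (q : Fin I.n) :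
    (I.code.2.2.1.getD a.val []).getD q.val 0 = (I.δ q a).val := by
  have h1 : I.code.2.2.1.getD a.val [] = (List.finRange I.n).map fun q => (I.δ q a).val := by
    show ((List.finRange I.m).map fun a => (List.finRange I.n).map fun q => (I.δ q a).val).getD
      a.val [] = _
    rw [List.getD_eq_getElem _ _ (by simp)]
    simp
  rw [h1, List.getD_eq_getElem _ _ (by simp)]
  simp

theorem val_step (m : ℕ) (I : Inst) (a : Fin m) (s : Fin ((I.m + 1) * I.n)) :
    ((few m I).δ s a).val = sv I.code I.n I.m a.val s.val := by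
  obtain ⟨⟨i, q⟩, rfl⟩ := finProdFinEquiv.surjective s
  have hn : 0 < I.n := Nat.pos_of_ne_zero fun h => by
    have := q.2
    omega
  have h0 : (few m I).δ (finProdFinEquiv (i, q)) a = finProdFinEquiv (stepP I a.val (i, q)) := by
    show finProdFinEquiv (stepP I a.val (finProdFinEquiv.symm (finProdFinEquiv (i, q)))) = _
    rw [Equiv.symm_apply_apply]
  rw [h0]
  have h1 : (finProdFinEquiv (i, q)).val = q.val + I.n * i.val := rfl
  have h2 : (q.val + I.n * i.val) / I.n = i.val := by
    rw [Nat.add_mul_div_left _ _ hn, Nat.div_eq_of_lt q.2, Nat.zero_add]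
  have h3 : (q.val + I.n * i.val) % I.n = q.val := by
    rw [Nat.add_mul_mod_self_left, Nat.mod_eq_of_lt q.2]
  unfold sv
  rw [h1, h2, h3]
  unfold stepP
  by_cases ha : a.val = 1
  · rw [if_pos ha, if_pos ha]
    by_cases hi : i.val < I.m
    · rw [if_pos hi]
      simp only [dif_pos hi]
      have h4 := code_getD I ⟨i.val, hi⟩ q
      simp only at h4
      rw [h4]
      show (I.δ q ⟨i.val, hi⟩).val + I.n * 0 = _
      simp
    · rw [if_neg hi]
      simp only [dif_neg hi]
      show q.val + I.n * 0 = _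
      simp
  · rw [if_neg ha, if_neg ha]
    rfl

theorem mem_P_val (m : ℕ) (I : Inst) (s : Fin ((I.m + 1) * I.n)) :
    decide (s ∈ (few m I).P) = (decide (s.val / I.n = 0) && I.code.2.2.2.getD (s.val % I.n) false) := by
  obtain ⟨⟨i, q⟩, rfl⟩ := finProdFinEquiv.surjective s
  have hn : 0 < I.n := Nat.pos_of_ne_zero fun h => by
    have := q.2
    omega
  have h1 : (finProdFinEquiv (i, q)).val = q.val + I.n * i.val := rfl
  have h2 : (q.val + I.n * i.val) / I.n = i.val := by
    rw [Nat.add_mul_div_left _ _ hn, Nat.div_eq_of_lt q.2, Nat.zero_add]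
  have h3 : (q.val + I.n * i.val) % I.n = q.val := by
    rw [Nat.add_mul_mod_self_left, Nat.mod_eq_of_lt q.2]
  rw [h1, h2, h3, Pool.Agent.H505R3.RS.code_vec, Pool.Agent.H505R3.RS.vec_getD, Bool.eq_iff_iff,
    decide_eq_true_eq, mem_P_few, Bool.and_eq_true, decide_eq_true_eq, decide_eq_true_eq]
  exact and_congr_left fun _ => Fin.ext_iff

theorem poly_code : NPC.Poly (fun I : Inst => I.code) :=
  NPC.Poly.of_toT (NPC.Poly.toT' (NPC.Poly.id (α := Inst)))

theorem uPoly_n : UPoly (fun I : Inst => I.n) := by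
  have h : UPoly (fun I : Inst => I.code.2.2.2.length) :=
    UPoly.length (NPC.Poly.snd (NPC.Poly.snd (NPC.Poly.snd poly_code)))
  have e : (fun I : Inst => I.code.2.2.2.length) = fun I : Inst => I.n :=
    funext Pool.Agent.H505R3.RS.code_len
  rwa [e] at h

theorem uPoly_m : UPoly (fun I : Inst => I.m) := by
  have h : UPoly (fun I : Inst => I.code.2.2.1.length) :=
    UPoly.length (NPC.Poly.fst (NPC.Poly.snd (NPC.Poly.snd poly_code)))
  have e : (fun I : Inst => I.code.2.2.1.length) = fun I : Inst => I.m :=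
    funext fun I => by simp [Inst.code]
  rwa [e] at h

theorem poly_few (m : ℕ) : NPC.Poly (fun I : Inst => few m I) := by
  have hN : UPoly (fun I : Inst => (I.m + 1) * I.n) :=
    UPoly.mul (UPoly.add uPoly_m (UPoly.const 1)) uPoly_n
  have h1 : NPC.Poly (fun I : Inst => (List.range m).map fun a =>
      (List.range ((I.m + 1) * I.n)).map fun s => sv I.code I.n I.m a s) := by
    refine NPC.Poly.map (F := fun (I : Inst) a => (List.range ((I.m + 1) * I.n)).map fun s =>
      sv I.code I.n I.m a s) (NPC.Poly.const _) ?_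
    have hx : NPC.Poly (fun p : Inst × ℕ => p.1) := NPC.Poly.fst NPC.Poly.id
    refine NPC.Poly.map (F := fun (p : Inst × ℕ) s => sv p.1.code p.1.n p.1.m p.2 s)
      (hN.comp hx).range ?_
    have hx : NPC.Poly (fun p : (Inst × ℕ) × ℕ => p.1.1) := NPC.Poly.fst (NPC.Poly.fst NPC.Poly.id)
    have ha : NPC.Poly (fun p : (Inst × ℕ) × ℕ => p.1.2) := NPC.Poly.snd (NPC.Poly.fst NPC.Poly.id)
    have hs : NPC.Poly (fun p : (Inst × ℕ) × ℕ => p.2) := NPC.Poly.snd NPC.Poly.id
    have hc := poly_code.comp hx
    have hn := uPoly_n.toPoly.comp hx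
    have hm := uPoly_m.toPoly.comp hx
    have hd := NPC.Poly.div hs hn
    have hr := NPC.Poly.mod hs hn
    unfold sv
    refine NPC.Poly.ite (NPC.Poly.decide_eq ha (NPC.Poly.const 1)) ?_ ?_
    · refine NPC.Poly.ite (NPC.Poly.decide_lt hd hm) ?_ hr
      exact NPC.Poly.getD (NPC.Poly.getD (NPC.Poly.fst (NPC.Poly.snd (NPC.Poly.snd hc))) hd
        (NPC.Poly.const [])) hr (NPC.Poly.const 0)
    · exact NPC.Poly.add hr (NPC.Poly.mul hn (NPC.Poly.min (NPC.Poly.add hd (NPC.Poly.const 1)) hm))
  have h2 : NPC.Poly (fun I : Inst => (List.range ((I.m + 1) * I.n)).map fun s =>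
      (decide (s / I.n = 0) && I.code.2.2.2.getD (s % I.n) false)) := by
    refine NPC.Poly.map (F := fun (I : Inst) s =>
      (decide (s / I.n = 0) && I.code.2.2.2.getD (s % I.n) false)) hN.range ?_
    have hx : NPC.Poly (fun p : Inst × ℕ => p.1) := NPC.Poly.fst NPC.Poly.id
    have hs : NPC.Poly (fun p : Inst × ℕ => p.2) := NPC.Poly.snd NPC.Poly.id
    have hc := poly_code.comp hx
    have hn := uPoly_n.toPoly.comp hx
    exact NPC.Poly.and (NPC.Poly.decide_eq (NPC.Poly.div hs hn) (NPC.Poly.const 0))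
      (NPC.Poly.getD (NPC.Poly.snd (NPC.Poly.snd (NPC.Poly.snd hc))) (NPC.Poly.mod hs hn)
        (NPC.Poly.const false))
  have h3 := NPC.Poly.pair hN.toPoly (NPC.Poly.pair (NPC.Poly.const m) (NPC.Poly.pair h1 h2))
  refine NPC.Poly.of_toT (h3.toT'.congr fun I => ?_)
  show toT _ = toT (few m I).code
  congr 1
  unfold Inst.code
  have e1 : ∀ a : Fin (few m I).m,
      ((List.finRange (few m I).n).map fun q => ((few m I).δ q a).val) =
      (List.range ((I.m + 1) * I.n)).map fun s => sv I.code I.n I.m a.val s := by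
    intro a
    rw [← finRange_map_val]
    refine List.map_congr_left ?_
    intro s _
    exact val_step m I a s
  simp only [e1]
  have e2 := finRange_map_val m (fun a =>
    (List.range ((I.m + 1) * I.n)).map fun s => sv I.code I.n I.m a s)
  have e4 : ((List.finRange (few m I).n).map fun q => decide (q ∈ (few m I).P)) =
      (List.range ((I.m + 1) * I.n)).map fun s =>
        (decide (s / I.n = 0) && I.code.2.2.2.getD (s % I.n) false) := by
    rw [← finRange_map_val]
    refine List.map_congr_left ?_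
    intro s _
    exact mem_P_val m I s
  rw [e4]
  exact congrArg₂ Prod.mk rfl (congrArg₂ Prod.mk rfl (congrArg₂ Prod.mk e2.symm rfl))

/-- REACHABLE SUBSET_k with `m ≥ 2` letters is `PSPACE`-hard for every `k ≥ 2`. -/
theorem hard {k m : ℕ} (hk : 2 ≤ k) (hm : 2 ≤ m) : PSPACEHard (lang (ReachLetters k m)) := by
  intro L hL
  obtain ⟨S, hS, hU, hwf, hiff⟩ := pspace_rules hL
  refine ⟨fun x => bits (few m (toInst k (S x))), ?_, ?_⟩
  · have h1 : PC (bits : List Bool → List Bool) (bits : Inst → List Bool)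
        (fun x => few m (toInst k (S x))) := (poly_few m).comp (poly_toInst k hS hU)
    have h2 : PC (fun x : List Bool => x) (bits : List Bool → List Bool) (fun x => x) := PC.ofBits
    obtain ⟨c, p, h⟩ := PC.comp h1 h2
    exact PC.toPolyTime ⟨c, p, h⟩
  · intro x
    rw [hiff, ← toInst_iff hk (hwf x), ← few_iff hm]
    unfold lang
    constructor
    · intro h
      exact ⟨_, rfl, h⟩
    · rintro ⟨I, hI, h⟩
      have : I = few m (toInst k (S x)) := TEnc.inj (T.enc_injective hI)
      rwa [this] at h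

end Pool.Agent.Y646.RB
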