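import Pool.Agent.Y646.RB.Few

/-!
# REACHABLE SUBSET_k for automata with a fixed number of letters: membership

Membership in `PSPACE` of REACHABLE SUBSET_k restricted to a class of instances decidable in
polynomial time, and membership in `P` for at most one letter.
-/

namespace Pool.Agent.Y646.RB

open Pool.Agent.NPC Pool.Agent.H623R2.PS Pool.Agent.H505R3.RS

set_option autoImplicit false

theorem init_bits (I : Inst) : init (bits I) = I.code := by
  unfold init
  have : bits I = bits I.code := rfl
  rw [this, unbits_bits, Option.getD_some]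

theorem bits_of_init {x : List Bool} {I : Inst} (h : I.code = init x) : bits I = x := by
  have hok : okc (init x) = true := by
    have h1 := (good_code I.P.card I).2 rfl
    rw [← h]
    unfold good at h1
    rw [Bool.and_eq_true] at h1
    exact h1.1
  have h3 : bits I = bits I.code := rfl
  rw [h3, h]
  unfold init
  cases hx : unbits Code x with
  | none =>
    exfalso
    unfold init at hok
    rw [hx, Option.getD_none] at hok
    exact absurd hok (by decide)
  | some c =>
    rw [Option.getD_some]
    exact bits_of_unbits hx

/-- REACHABLE SUBSET_k restricted to a class decidable in polynomial time is in `PSPACE`. -/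
theorem member_of {k : ℕ} {τ : Code → Bool} (hτ : NPC.Poly τ) {Φ : Inst → Prop}
    (hΦ : ∀ I : Inst, I.P.card = k → (τ I.code = true ↔ Φ I)) :
    InPSPACE (lang (fun I : Inst => Φ I ∧ ReachableSubset k I)) := by
  have hinit : NPC.Poly init := NPC.Poly.optGetD poly_unbits (NPC.Poly.const _)
  have hw : UPoly (fun c : Code => c.2.2.2.length) := UPoly.length (by fun_prop)
  have hg : NPC.Poly (fun c : Code => good k c && τ c) := NPC.Poly.and (poly_good k) hτ
  refine inPSPACE_of_reach hinit hw (good := fun c => good k c && τ c) hg
    (R := stp) poly_stp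
    (s := fun c => List.replicate c.2.2.2.length true) (t := fun c => c.2.2.2)
    (poly_replicate hw true) (by fun_prop) ?_ ?_ ?_
  · intro c
    simp
  · intro c u v _ h
    unfold stp at h
    rw [List.any_eq_true] at h
    obtain ⟨row, _, h⟩ := h
    rw [decide_eq_true_eq] at h
    rw [h]
    simp [img]
  · intro x
    constructor
    · rintro ⟨I, rfl, hm, hcard, w, hw⟩
      rw [init_bits, Bool.and_eq_true, good_code, code_len, code_vec]
      refine ⟨⟨hcard, (hΦ I hcard).2 hm⟩, ?_⟩
      have h2 := (reach_iff I (vec I.P)).2 ⟨w, by rw [hw]⟩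
      rwa [vec_univ] at h2
    · rintro ⟨h1, h2⟩
      rw [Bool.and_eq_true] at h1
      obtain ⟨h1, h1'⟩ := h1
      have hok : okc (init x) = true := by
        unfold good at h1
        rw [Bool.and_eq_true] at h1
        exact h1.1
      obtain ⟨I, hI⟩ := exists_inst hok
      rw [← hI, good_code] at h1
      rw [← hI, hΦ I h1] at h1'
      rw [← hI, code_len, code_vec, ← vec_univ, reach_iff] at h2
      obtain ⟨w, hw⟩ := h2
      exact ⟨I, bits_of_init hI, h1', h1, w, (vec_injective hw).symm⟩

/-- A property of instances that is decided by a polynomial-time function of the code is in `P`. -/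
theorem inP_of {d : Code → Bool} (hd : NPC.Poly d) {Ψ : Inst → Prop}
    (hΨ : ∀ I : Inst, d I.code = true ↔ Ψ I) : InP (lang Ψ) := by
  have hinit : NPC.Poly init := NPC.Poly.optGetD poly_unbits (NPC.Poly.const _)
  have hok : NPC.Poly okc := by
    unfold okc
    have h1 : NPC.Poly (fun p : Code × List ℕ => p.2.all fun x => decide (x < p.1.2.2.2.length)) :=
      NPC.Poly.all (l := fun p : Code × List ℕ => p.2) (p := fun p x => decide (x < p.1.2.2.2.length))
        (by fun_prop) (by fun_prop)
    have h2 : NPC.Poly (fun c : Code => c.2.2.1.all fun row =>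
        decide (row.length = c.2.2.2.length) && row.all fun x => decide (x < c.2.2.2.length)) :=
      NPC.Poly.all (l := fun c : Code => c.2.2.1) (p := fun c row =>
        decide (row.length = c.2.2.2.length) && row.all fun x => decide (x < c.2.2.2.length))
        (by fun_prop) (NPC.Poly.and (by fun_prop) h1)
    exact NPC.Poly.and (by fun_prop) (NPC.Poly.and (by fun_prop) h2)
  refine ⟨fun x => [okc (init x) && d (init x)],
    polyTime_of_poly (NPC.Poly.and (hok.comp hinit) (hd.comp hinit)), ?_⟩
  intro x
  constructor
  · rintro ⟨I, rfl, h⟩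
    show [okc (init (bits I)) && d (init (bits I))] = [true]
    have h1 := (good_code I.P.card I).2 rfl
    unfold good at h1
    rw [Bool.and_eq_true] at h1
    rw [init_bits, (hΨ I).2 h, h1.1]
    rfl
  · intro h
    have h1 : okc (init x) = true ∧ d (init x) = true := by simpa using h
    obtain ⟨I, hI⟩ := exists_inst h1.1
    have h2 := h1.2
    rw [← hI, hΨ] at h2
    exact ⟨I, bits_of_init hI, h2⟩

/-- REACHABLE SUBSET_k with `m` letters is in `PSPACE`. -/
theorem member (k m : ℕ) : InPSPACE (lang (ReachLetters k m)) :=
  member_of (τ := fun c => decide (c.2.1 = m)) (Φ := fun I => I.m = m)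
    (NPC.Poly.decide_eq (by fun_prop) (NPC.Poly.const m)) (fun _ _ => decide_eq_true_iff)

/-! ### At most one letter -/

/-- iterated images of the whole state set under one letter -/
def iter (n : ℕ) (row : List ℕ) (j : ℕ) : List Bool :=
  (List.range j).foldl (fun v _ => img n row v) (List.replicate n true)

theorem foldl_len {n : ℕ} {F : List Bool → List Bool} (hF : ∀ v, (F v).length = n) :
    ∀ (l : List ℕ) (v : List Bool), v.length = n → (l.foldl (fun v _ => F v) v).length = n
  | [], _, h => h
  | _ :: l, v, _ => by
    rw [List.foldl_cons]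
    exact foldl_len hF l _ (hF v)

/-- Iteration of a polynomial-time step on bit strings of a fixed length -/
theorem poly_foldl {α : Type} [TEnc α] {n j : α → ℕ} {s : α → List Bool}
    {F : α → List Bool → List Bool} (hn : UPoly n) (hj : UPoly j) (hs : NPC.Poly s)
    (hF : NPC.Poly (fun p : α × List Bool => F p.1 p.2)) (hsl : ∀ a, (s a).length = n a)
    (hFl : ∀ a v, (F a v).length = n a) :
    NPC.Poly (fun a => (List.range (j a)).foldl (fun v _ => F a v) (s a)) := by
  obtain ⟨p, hp⟩ := NPC.Poly.sz_le (hn : NPC.Poly (fun a => List.replicate (n a) ()))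
  have hx : NPC.Poly (fun p : α × List Bool × ℕ => (p.1, p.2.1)) :=
    NPC.Poly.pair (NPC.Poly.fst NPC.Poly.id) (NPC.Poly.fst (NPC.Poly.snd NPC.Poly.id))
  refine NPC.Poly.foldl (l := fun a => List.range (j a)) (s := s)
    (F := fun a v _ => F a v) hj.range hs (hF.comp hx) (4 * p + 1) ?_
  intro a k _
  have h1 := sz_listBool_le (((List.range (j a)).take k).foldl (fun v _ => F a v) (s a))
  rw [foldl_len (hFl a) _ _ (hsl a)] at h1
  have h2 : (List.replicate (n a) ()).length < sz (List.replicate (n a) ()) := length_lt_sz _
  rw [List.length_replicate] at h2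
  have h3 := hp a
  simp only [Polynomial.eval_add, Polynomial.eval_mul, Polynomial.eval_one, Polynomial.eval_ofNat]
  omega

theorem poly_iter {α : Type} [TEnc α] {n : α → ℕ} {row : α → List ℕ} {j : α → ℕ} (hn : UPoly n)
    (hrow : NPC.Poly row) (hj : UPoly j) : NPC.Poly (fun a => iter (n a) (row a) (j a)) := by
  have hx : NPC.Poly (fun p : α × List Bool => p.1) := NPC.Poly.fst NPC.Poly.id
  exact poly_foldl (F := fun a v => img (n a) (row a) v) hn hj (poly_replicate hn true)
    (poly_img (hn.comp hx) (hrow.comp hx) (NPC.Poly.snd NPC.Poly.id)) (fun a => by simp)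
    (fun a v => by simp [img])

/-- the sets `f^j(Q)` -/
theorem iter_vec {n : ℕ} (f : Fin n → Fin n) (j : ℕ) :
    iter n ((List.finRange n).map fun q => (f q).val) j =
      vec (Finset.univ.image f^[j]) := by
  induction j with
  | zero =>
    have : (Finset.univ.image f^[0] : Finset (Fin n)) = Finset.univ := by
      ext q
      simp
    rw [this, vec_univ]
    rfl
  | succ j ih =>
    have h1 : iter n ((List.finRange n).map fun q => (f q).val) (j + 1) =
        img n ((List.finRange n).map fun q => (f q).val)
          (iter n ((List.finRange n).map fun q => (f q).val) j) := by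
      unfold iter
      rw [List.range_succ, List.foldl_append]
      rfl
    rw [h1, ih, img_vec, Finset.image_image]
    congr 2
    rw [Function.iterate_succ']

/-- the sets `f^j(Q)` with `j ≤ n` are all sets `f^j(Q)` -/
theorem iterate_stab {n : ℕ} (f : Fin n → Fin n) (j : ℕ) :
    ∃ j' ≤ n, (Finset.univ.image f^[j'] : Finset (Fin n)) = Finset.univ.image f^[j] := by
  set S : ℕ → Finset (Fin n) := fun j => Finset.univ.image f^[j] with hS
  have hs : ∀ j, S (j + 1) = (S j).image f := by
    intro j
    simp only [hS]
    rw [Finset.image_image, Function.iterate_succ']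
  have hsub : ∀ j, S (j + 1) ⊆ S j := by
    intro j q hq
    simp only [hS, Finset.mem_image, Finset.mem_univ, true_and] at hq ⊢
    obtain ⟨q0, rfl⟩ := hq
    exact ⟨f q0, rfl⟩
  have hex : ∃ i ≤ n, S (i + 1) = S i := by
    by_contra hcon
    push Not at hcon
    have hc : ∀ i ≤ n + 1, (S i).card + i ≤ n := by
      intro i
      induction i with
      | zero =>
        intro _
        have := Finset.card_le_univ (S 0)
        simpa using this
      | succ i ih =>
        intro hi
        have h1 := ih (by omega)
        have h2 : S (i + 1) ⊂ S i := (hsub i).ssubset_of_ne (hcon i (by omega))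
        have h3 := Finset.card_lt_card h2
        omega
    have := hc (n + 1) le_rfl
    omega
  obtain ⟨i, hi, he⟩ := hex
  have hst : ∀ t, S (i + t) = S i := by
    intro t
    induction t with
    | zero => rfl
    | succ t ih =>
      rw [← Nat.add_assoc, hs, ih, ← hs, he]
  by_cases hj : j ≤ n
  · exact ⟨j, hj, rfl⟩
  · refine ⟨i, hi, ?_⟩
    have := hst (j - i)
    rw [show i + (j - i) = j by omega] at this
    exact this.symm

/-- the transformation given by the letter, the identity if there is none -/
def theF (I : Inst) (q : Fin I.n) : Fin I.n := if h : 0 < I.m then I.δ q ⟨0, h⟩ else q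

/-- the only row of the table -/
def theRow (c : Code) : List ℕ := c.2.2.1.getD 0 (List.range c.2.2.2.length)

theorem theRow_code (I : Inst) : theRow I.code = (List.finRange I.n).map fun q => (theF I q).val := by
  unfold theRow
  rw [code_len]
  by_cases h : 0 < I.m
  · have h1 : (fun q => (theF I q).val) = fun q => (I.δ q ⟨0, h⟩).val := by
      funext q
      simp [theF, h]
    rw [h1]
    show ((List.finRange I.m).map fun a => (List.finRange I.n).map fun q => (I.δ q a).val).getD
      0 (List.range I.n) = _
    rw [List.getD_eq_getElem _ _ (by simpa using h)]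
    simp
  · have h1 : (fun q => (theF I q).val) = fun q : Fin I.n => q.val := by
      funext q
      simp [theF, h]
    rw [h1]
    have h2 : I.code.2.2.1.length = 0 := by
      simp [Inst.code]
      omega
    rw [List.length_eq_zero_iff] at h2
    rw [h2, List.getD_nil, ← List.map_coe_finRange_eq_range]

theorem image_one {I : Inst} (hI : I.m ≤ 1) (w : List (Fin I.m)) :
    I.image w = Finset.univ.image (theF I)^[w.length] := by
  unfold Inst.image
  congr 1
  funext q
  induction w generalizing q with
  | nil => rfl
  | cons a w ih =>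
    have ha : 0 < I.m := by
      have := a.2
      omega
    have ha' : a = ⟨0, ha⟩ := Fin.ext (by have := a.2; show a.val = 0; omega)
    rw [List.foldl_cons, ih, List.length_cons, Function.iterate_succ_apply]
    congr 1
    simp [theF, ha, ha']

theorem reach_one {I : Inst} (hI : I.m ≤ 1) :
    (∃ w, I.image w = I.P) ↔ ∃ j ∈ List.range (I.n + 1), iter I.n (theRow I.code) j = vec I.P := by
  constructor
  · rintro ⟨w, hw⟩
    rw [image_one hI] at hw
    obtain ⟨j, hj, h⟩ := iterate_stab (theF I) w.length
    refine ⟨j, List.mem_range.2 (by omega), ?_⟩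
    rw [theRow_code, iter_vec, h, hw]
  · rintro ⟨j, _, h⟩
    rw [theRow_code, iter_vec] at h
    have h' := vec_injective h
    by_cases hm : 0 < I.m
    · refine ⟨List.replicate j ⟨0, hm⟩, ?_⟩
      rw [image_one hI, List.length_replicate, h']
    · refine ⟨[], ?_⟩
      rw [image_one hI, ← h']
      have hid : theF I = id := by
        funext q
        simp [theF, hm]
      rw [hid]
      simp

/-- the test for at most one letter -/
def test1 (k m : ℕ) (c : Code) : Bool :=
  (good k c && decide (c.2.1 = m)) && (List.range (c.2.2.2.length + 1)).any fun j =>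
    decide (iter c.2.2.2.length (theRow c) (min j (c.2.2.2.length + 1)) = c.2.2.2)

theorem poly_test1 (k m : ℕ) : NPC.Poly (test1 k m) := by
  have hw : UPoly (fun c : Code => c.2.2.2.length) := UPoly.length (by fun_prop)
  have hw1 : UPoly (fun c : Code => c.2.2.2.length + 1) := hw.add (UPoly.const 1)
  have hrow : NPC.Poly theRow := by
    unfold theRow
    exact NPC.Poly.getD (by fun_prop) (NPC.Poly.const 0) hw.range
  have hx : NPC.Poly (fun p : Code × ℕ => p.1) := NPC.Poly.fst NPC.Poly.id
  have hy : NPC.Poly (fun p : Code × ℕ => p.2) := NPC.Poly.snd NPC.Poly.id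
  have hmin : UPoly (fun p : Code × ℕ => min p.2 (p.1.2.2.2.length + 1)) :=
    UPoly.of_le (NPC.Poly.min hy (hw1.toPoly.comp hx)) (hw1.comp hx) (fun p => min_le_right _ _)
  unfold test1
  refine NPC.Poly.and (NPC.Poly.and (poly_good k) (NPC.Poly.decide_eq (by fun_prop)
    (NPC.Poly.const m))) ?_
  refine NPC.Poly.any (l := fun c : Code => List.range (c.2.2.2.length + 1)) (p := fun c j =>
    decide (iter c.2.2.2.length (theRow c) (min j (c.2.2.2.length + 1)) = c.2.2.2)) hw1.range ?_
  exact NPC.Poly.decide_eq (poly_iter (hw.comp hx) (hrow.comp hx) hmin) (by fun_prop)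

theorem test1_code {k m : ℕ} (hm : m ≤ 1) (I : Inst) :
    test1 k m I.code = true ↔ ReachLetters k m I := by
  unfold test1 ReachLetters ReachableSubset
  rw [Bool.and_eq_true, Bool.and_eq_true, good_code, decide_eq_true_eq, List.any_eq_true, code_len]
  constructor
  · rintro ⟨⟨h1, h2⟩, j, hj, h⟩
    have h2' : I.m = m := h2
    refine ⟨h2', h1, (reach_one (by omega)).2 ⟨j, hj, ?_⟩⟩
    rw [List.mem_range] at hj
    rw [decide_eq_true_eq, min_eq_left (by omega)] at h
    exact h
  · rintro ⟨h1, h2, h3⟩
    obtain ⟨j, hj, h⟩ := (reach_one (by omega)).1 h3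
    refine ⟨⟨h2, h1⟩, j, hj, ?_⟩
    rw [List.mem_range] at hj
    rw [decide_eq_true_eq, min_eq_left (by omega)]
    exact h

/-- With at most one letter the problem is in `P`. -/
theorem inP_one (k : ℕ) {m : ℕ} (hm : m ≤ 1) : InP (lang (ReachLetters k m)) :=
  inP_of (poly_test1 k m) (test1_code hm)

end Pool.Agent.Y646.RB
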