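import Pool.Agent.Y646.RB.One

/-!
# Pairs of states that can be sent to a given state, in polynomial time
-/

namespace Pool.Agent.Y646.RB

open Pool.Agent.NPC Pool.Agent.H623R2.PS Pool.Agent.H505R3.RS

set_option autoImplicit false

/-- one round of the closure (the pair `(p, q)` has number `q + n * p`) -/
def rnd (n : ℕ) (T : List (List ℕ)) (v : List Bool) : List Bool :=
  (List.range (n * n)).map fun x => v.getD x false ||
    T.any fun row => v.getD (row.getD (x % n) 0 + n * row.getD (x / n) 0) false

/-- the start: only the pair `(t, t)` -/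
def beg (n t : ℕ) : List Bool :=
  (List.range (n * n)).map fun x => decide (x / n = t) && decide (x % n = t)

/-- the pairs sent to `(t, t)` by words of length at most `j` -/
def clos (n : ℕ) (T : List (List ℕ)) (t j : ℕ) : List Bool :=
  (List.range j).foldl (fun v _ => rnd n T v) (beg n t)

theorem poly_clos {α : Type} [TEnc α] {n t j : α → ℕ} {T : α → List (List ℕ)} (hn : UPoly n)
    (hT : NPC.Poly T) (ht : NPC.Poly t) (hj : UPoly j) :
    NPC.Poly (fun a => clos (n a) (T a) (t a) (j a)) := by
  have hnn : UPoly (fun a => n a * n a) := UPoly.mul hn hn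
  refine poly_foldl (n := fun a => n a * n a) (F := fun a v => rnd (n a) (T a) v)
    (s := fun a => beg (n a) (t a)) hnn hj ?_ ?_ (fun a => by simp [beg]) (fun a v => by simp [rnd])
  · unfold beg
    refine NPC.Poly.map (l := fun a => List.range (n a * n a))
      (F := fun a x => decide (x / n a = t a) && decide (x % n a = t a)) hnn.range ?_
    have hx : NPC.Poly (fun p : α × ℕ => p.1) := NPC.Poly.fst NPC.Poly.id
    have hy : NPC.Poly (fun p : α × ℕ => p.2) := NPC.Poly.snd NPC.Poly.id
    exact NPC.Poly.and (NPC.Poly.decide_eq (NPC.Poly.div hy (hn.toPoly.comp hx)) (ht.comp hx))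
      (NPC.Poly.decide_eq (NPC.Poly.mod hy (hn.toPoly.comp hx)) (ht.comp hx))
  · unfold rnd
    have ha : NPC.Poly (fun p : α × List Bool => p.1) := NPC.Poly.fst NPC.Poly.id
    refine NPC.Poly.map (l := fun p : α × List Bool => List.range (n p.1 * n p.1))
      (F := fun p x => p.2.getD x false || (T p.1).any fun row =>
        p.2.getD (row.getD (x % n p.1) 0 + n p.1 * row.getD (x / n p.1) 0) false)
      (hnn.comp ha).range ?_
    have hx : NPC.Poly (fun p : (α × List Bool) × ℕ => p.1.1) :=
      NPC.Poly.fst (NPC.Poly.fst NPC.Poly.id)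
    have hv : NPC.Poly (fun p : (α × List Bool) × ℕ => p.1.2) :=
      NPC.Poly.snd (NPC.Poly.fst NPC.Poly.id)
    have hy : NPC.Poly (fun p : (α × List Bool) × ℕ => p.2) := NPC.Poly.snd NPC.Poly.id
    refine NPC.Poly.or (NPC.Poly.getD hv hy (NPC.Poly.const false)) ?_
    refine NPC.Poly.any (l := fun p : (α × List Bool) × ℕ => T p.1.1)
      (p := fun p row => p.1.2.getD (row.getD (p.2 % n p.1.1) 0 +
        n p.1.1 * row.getD (p.2 / n p.1.1) 0) false) (hT.comp hx) ?_
    have hz : NPC.Poly (fun p : ((α × List Bool) × ℕ) × List ℕ => p.1) := NPC.Poly.fst NPC.Poly.id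
    have hr : NPC.Poly (fun p : ((α × List Bool) × ℕ) × List ℕ => p.2) := NPC.Poly.snd NPC.Poly.id
    have hn' := (hn.toPoly.comp hx).comp hz
    have hy' := hy.comp hz
    exact NPC.Poly.getD (hv.comp hz) (NPC.Poly.add
      (NPC.Poly.getD hr (NPC.Poly.mod hy' hn') (NPC.Poly.const 0))
      (NPC.Poly.mul hn' (NPC.Poly.getD hr (NPC.Poly.div hy' hn') (NPC.Poly.const 0))))
      (NPC.Poly.const false)

/-- one round on sets of pairs -/
def rndS (I : Inst) (S : Finset (Fin (I.n * I.n))) : Finset (Fin (I.n * I.n)) :=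
  S ∪ Finset.univ.filter fun x => ∃ a : Fin I.m,
    finProdFinEquiv (I.δ (finProdFinEquiv.symm x).1 a, I.δ (finProdFinEquiv.symm x).2 a) ∈ S

theorem rnd_vec (I : Inst) (S : Finset (Fin (I.n * I.n))) :
    rnd I.n I.code.2.2.1 (vec S) = vec (rndS I S) := by
  apply List.ext_getElem
  · simp [rnd, vec_length]
  · intro i h1 h2
    have hi : i < I.n * I.n := by rwa [vec_length] at h2
    rw [vec_getElem _ _ _ hi]
    have hn : 0 < I.n := Nat.pos_of_ne_zero fun h => by
      rw [h] at hi
      simp at hi
    have e1 : (finProdFinEquiv.symm (⟨i, hi⟩ : Fin (I.n * I.n))).1.val = i / I.n := rfl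
    have e2 : (finProdFinEquiv.symm (⟨i, hi⟩ : Fin (I.n * I.n))).2.val = i % I.n := rfl
    have h3 : (rnd I.n I.code.2.2.1 (vec S))[i]'h1 = ((vec S).getD i false ||
        I.code.2.2.1.any fun row => (vec S).getD (row.getD (i % I.n) 0 + I.n * row.getD (i / I.n) 0)
          false) := by
      simp only [rnd, List.getElem_map, List.getElem_range]
    have h4 := vec_getD S ⟨i, hi⟩
    simp only at h4
    rw [h3, h4, Bool.eq_iff_iff, Bool.or_eq_true, decide_eq_true_eq, decide_eq_true_eq,
      List.any_eq_true]
    unfold rndS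
    rw [Finset.mem_union, Finset.mem_filter]
    refine or_congr Iff.rfl ?_
    have hrow : ∀ (a : Fin I.m), ((List.finRange I.n).map fun q => (I.δ q a).val).getD (i % I.n) 0 +
        I.n * ((List.finRange I.n).map fun q => (I.δ q a).val).getD (i / I.n) 0 =
        (finProdFinEquiv (I.δ (finProdFinEquiv.symm (⟨i, hi⟩ : Fin (I.n * I.n))).1 a,
          I.δ (finProdFinEquiv.symm (⟨i, hi⟩ : Fin (I.n * I.n))).2 a)).val := by
      intro a
      have h5 : i / I.n < I.n := by rw [← e1]; exact Fin.is_lt _
      have h6 : i % I.n < I.n := Nat.mod_lt _ hn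
      rw [List.getD_eq_getElem _ _ (by simpa using h6), List.getD_eq_getElem _ _ (by simpa using h5)]
      simp only [List.getElem_map, List.getElem_finRange]
      rfl
    constructor
    · rintro ⟨row, hr, h⟩
      have hr' : row ∈ (List.finRange I.m).map fun a => (List.finRange I.n).map fun q =>
        (I.δ q a).val := hr
      simp only [List.mem_map, List.mem_finRange, true_and] at hr'
      obtain ⟨a, rfl⟩ := hr'
      refine ⟨Finset.mem_univ _, a, ?_⟩
      rw [hrow a, vec_getD] at h
      simpa using h
    · rintro ⟨_, a, h⟩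
      refine ⟨(List.finRange I.n).map fun q => (I.δ q a).val, ?_, ?_⟩
      · show _ ∈ (List.finRange I.m).map fun a => (List.finRange I.n).map fun q => (I.δ q a).val
        simp only [List.mem_map, List.mem_finRange, true_and]
        exact ⟨a, rfl⟩
      · rw [hrow a, vec_getD]
        simpa using h

theorem beg_vec (I : Inst) (t : Fin I.n) :
    beg I.n t.val = vec ({finProdFinEquiv (t, t)} : Finset (Fin (I.n * I.n))) := by
  apply List.ext_getElem
  · simp [beg, vec_length]
  · intro i h1 h2
    have hi : i < I.n * I.n := by rwa [vec_length] at h2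
    rw [vec_getElem _ _ _ hi]
    have h3 : (beg I.n t.val)[i]'h1 = (decide (i / I.n = t.val) && decide (i % I.n = t.val)) := by
      simp only [beg, List.getElem_map, List.getElem_range]
    rw [h3, Bool.eq_iff_iff, Bool.and_eq_true, decide_eq_true_eq, decide_eq_true_eq,
      decide_eq_true_eq, Finset.mem_singleton]
    constructor
    · rintro ⟨h4, h5⟩
      rw [← Equiv.symm_apply_eq]
      exact Prod.ext (Fin.ext h4) (Fin.ext h5)
    · intro h
      rw [← Equiv.symm_apply_eq] at h
      exact ⟨congrArg (fun p : Fin I.n × Fin I.n => p.1.val) h,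
        congrArg (fun p : Fin I.n × Fin I.n => p.2.val) h⟩

theorem clos_vec (I : Inst) (t : Fin I.n) (j : ℕ) :
    clos I.n I.code.2.2.1 t.val j = vec ((rndS I)^[j] {finProdFinEquiv (t, t)}) := by
  induction j with
  | zero => exact beg_vec I t
  | succ j ih =>
    have h1 : clos I.n I.code.2.2.1 t.val (j + 1) =
        rnd I.n I.code.2.2.1 (clos I.n I.code.2.2.1 t.val j) := by
      unfold clos
      rw [List.range_succ, List.foldl_append]
      rfl
    rw [h1, ih, rnd_vec, Function.iterate_succ_apply']

/-- Growing chains become constant. -/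
theorem chain_stab {N : ℕ} (F : Finset (Fin N) → Finset (Fin N)) (S0 : Finset (Fin N))
    (hF : ∀ S, S ⊆ F S) (j : ℕ) : F^[j] S0 ⊆ F^[N] S0 := by
  have hex : ∃ i ≤ N, F^[i + 1] S0 = F^[i] S0 := by
    by_contra hcon
    push Not at hcon
    have hc : ∀ i ≤ N + 1, i ≤ (F^[i] S0).card := by
      intro i
      induction i with
      | zero => exact fun _ => Nat.zero_le _
      | succ i ih =>
        intro hi
        have h1 := ih (by omega)
        have h2 : F^[i] S0 ⊂ F^[i + 1] S0 := by
          refine Finset.ssubset_iff_subset_ne.2 ⟨?_, (hcon i (by omega)).symm⟩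
          rw [Function.iterate_succ_apply']
          exact hF _
        have h3 := Finset.card_lt_card h2
        omega
    have h1 := hc (N + 1) le_rfl
    have h2 := Finset.card_le_univ (F^[N + 1] S0)
    rw [Fintype.card_fin] at h2
    omega
  obtain ⟨i, hi, he⟩ := hex
  have hst : ∀ t, F^[i + t] S0 = F^[i] S0 := by
    intro t
    induction t with
    | zero => rfl
    | succ t ih =>
      rw [← Nat.add_assoc, Function.iterate_succ_apply', ih, ← Function.iterate_succ_apply' F, he]
  have hmono : ∀ t j, F^[j] S0 ⊆ F^[j + t] S0 := by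
    intro t
    induction t with
    | zero => exact fun j => subset_rfl
    | succ t ih =>
      intro j
      refine (ih j).trans ?_
      rw [← Nat.add_assoc, Function.iterate_succ_apply']
      exact hF _
  by_cases hj : j ≤ N
  · have := hmono (N - j) j
    rwa [show j + (N - j) = N by omega] at this
  · have h1 := hst (j - i)
    rw [show i + (j - i) = j by omega] at h1
    have h2 := hst (N - i)
    rw [show i + (N - i) = N by omega] at h2
    rw [h1, h2]

theorem mem_rndS_iff (I : Inst) (t p q : Fin I.n) :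
    finProdFinEquiv (p, q) ∈ (rndS I)^[I.n * I.n] {finProdFinEquiv (t, t)} ↔
      ∃ w : List (Fin I.m), w.foldl I.δ p = t ∧ w.foldl I.δ q = t := by
  constructor
  · have h : ∀ j p q, finProdFinEquiv (p, q) ∈ (rndS I)^[j] {finProdFinEquiv (t, t)} →
        ∃ w : List (Fin I.m), w.foldl I.δ p = t ∧ w.foldl I.δ q = t := by
      intro j
      induction j with
      | zero =>
        intro p q h
        have h1 : finProdFinEquiv (p, q) = finProdFinEquiv (t, t) := Finset.mem_singleton.1 h
        have h2 := finProdFinEquiv.injective h1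
        exact ⟨[], congrArg Prod.fst h2, congrArg Prod.snd h2⟩
      | succ j ih =>
        intro p q h
        rw [Function.iterate_succ_apply'] at h
        rcases Finset.mem_union.1 h with h | h
        · exact ih p q h
        · obtain ⟨a, ha⟩ := (Finset.mem_filter.1 h).2
          rw [Equiv.symm_apply_apply] at ha
          obtain ⟨w, h1, h2⟩ := ih _ _ ha
          exact ⟨a :: w, h1, h2⟩
    exact h _ p q
  · rintro ⟨w, h1, h2⟩
    refine chain_stab (rndS I) _ (fun S => Finset.subset_union_left) w.length ?_
    induction w generalizing p q with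
    | nil =>
      have h1' : p = t := h1
      have h2' : q = t := h2
      rw [h1', h2']
      exact Finset.mem_singleton_self _
    | cons a w ih =>
      rw [List.length_cons, Function.iterate_succ_apply']
      refine Finset.mem_union_right _ (Finset.mem_filter.2 ⟨Finset.mem_univ _, a, ?_⟩)
      rw [Equiv.symm_apply_apply]
      exact ih _ _ h1 h2

/-- the test whether every pair of states can be sent to `t` by one word -/
def testP (c : Code) (t : ℕ) : Bool :=
  (clos c.2.2.2.length c.2.2.1 t (c.2.2.2.length * c.2.2.2.length)).all fun b => b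

theorem poly_testP {α : Type} [TEnc α] {c : α → Code} {t : α → ℕ} (hc : NPC.Poly c)
    (ht : NPC.Poly t) : NPC.Poly (fun a => testP (c a) (t a)) := by
  unfold testP
  have hn : UPoly (fun a => (c a).2.2.2.length) := UPoly.length (by fun_prop)
  exact NPC.Poly.all (l := fun a => clos (c a).2.2.2.length (c a).2.2.1 (t a)
    ((c a).2.2.2.length * (c a).2.2.2.length)) (p := fun _ b => b)
    (poly_clos hn (by fun_prop) ht (hn.mul hn)) (NPC.Poly.snd NPC.Poly.id)

theorem testP_iff (I : Inst) (t : Fin I.n) : testP I.code t.val = true ↔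
    ∀ p q : Fin I.n, ∃ w : List (Fin I.m), w.foldl I.δ p = t ∧ w.foldl I.δ q = t := by
  unfold testP
  rw [code_len, clos_vec, List.all_eq_true]
  constructor
  · intro h p q
    rw [← mem_rndS_iff]
    have h1 := h (decide (finProdFinEquiv (p, q) ∈ (rndS I)^[I.n * I.n] {finProdFinEquiv (t, t)})) (by
      unfold vec
      exact List.mem_map.2 ⟨_, List.mem_finRange _, rfl⟩)
    simpa using h1
  · intro h b hb
    unfold vec at hb
    obtain ⟨x, _, rfl⟩ := List.mem_map.1 hb
    obtain ⟨⟨p, q⟩, rfl⟩ := finProdFinEquiv.surjective x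
    rw [decide_eq_true_eq, mem_rndS_iff]
    exact h p q

/-- If every pair of states can be sent to `t` by one word then `{t}` is reachable. -/
theorem greedy (I : Inst) (t : Fin I.n)
    (h : ∀ p q : Fin I.n, ∃ w : List (Fin I.m), w.foldl I.δ p = t ∧ w.foldl I.δ q = t) :
    ∃ w : List (Fin I.m), ∀ q, w.foldl I.δ q = t := by
  have key : ∀ (c : ℕ) (S : Finset (Fin I.n)), S.card ≤ c + 1 →
      ∃ w : List (Fin I.m), ∀ q ∈ S, w.foldl I.δ q = t := by
    intro c
    induction c with
    | zero =>
      intro S hS
      rcases S.eq_empty_or_nonempty with rfl | ⟨s, hs⟩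
      · exact ⟨[], fun q hq => absurd hq (Finset.notMem_empty _)⟩
      · obtain ⟨w, hw, _⟩ := h s s
        refine ⟨w, fun q hq => ?_⟩
        rw [Finset.card_le_one.1 (by simpa using hS) q hq s hs]
        exact hw
    | succ c ih =>
      intro S hS
      by_cases hc : S.card ≤ c + 1
      · exact ih S hc
      · obtain ⟨p, hp, q, hq, hpq⟩ := Finset.one_lt_card.1 (by omega : 1 < S.card)
        obtain ⟨w, h1, h2⟩ := h p q
        have h3 : (S.image fun x => w.foldl I.δ x).card < S.card := by
          refine lt_of_le_of_ne Finset.card_image_le ?_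
          intro he
          exact hpq (Finset.card_image_iff.1 he hp hq (h1.trans h2.symm))
        obtain ⟨w', hw'⟩ := ih (S.image fun x => w.foldl I.δ x) (by omega)
        refine ⟨w ++ w', fun x hx => ?_⟩
        rw [List.foldl_append]
        exact hw' _ (Finset.mem_image_of_mem _ hx)
  obtain ⟨w, hw⟩ := key (Finset.univ : Finset (Fin I.n)).card Finset.univ (Nat.le_succ _)
  exact ⟨w, fun q => hw q (Finset.mem_univ _)⟩

/-! ### One state -/

/-- the test for one state -/
def test2 (m : ℕ) (c : Code) : Bool :=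
  (good 1 c && decide (c.2.1 = m)) && (List.range c.2.2.2.length).any fun t =>
    c.2.2.2.getD t false && testP c t

theorem poly_test2 (m : ℕ) : NPC.Poly (test2 m) := by
  have hw : UPoly (fun c : Code => c.2.2.2.length) := UPoly.length (by fun_prop)
  have hx : NPC.Poly (fun p : Code × ℕ => p.1) := NPC.Poly.fst NPC.Poly.id
  have hy : NPC.Poly (fun p : Code × ℕ => p.2) := NPC.Poly.snd NPC.Poly.id
  unfold test2
  refine NPC.Poly.and (NPC.Poly.and (poly_good 1) (NPC.Poly.decide_eq (by fun_prop)
    (NPC.Poly.const m))) ?_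
  refine NPC.Poly.any (l := fun c : Code => List.range c.2.2.2.length) (p := fun c t =>
    c.2.2.2.getD t false && testP c t) hw.range ?_
  exact NPC.Poly.and (NPC.Poly.getD (by fun_prop) hy (NPC.Poly.const false)) (poly_testP hx hy)

theorem test2_code {m : ℕ} (I : Inst) : test2 m I.code = true ↔ ReachLetters 1 m I := by
  unfold test2 ReachLetters ReachableSubset
  rw [Bool.and_eq_true, Bool.and_eq_true, good_code, decide_eq_true_eq, List.any_eq_true, code_len]
  constructor
  · rintro ⟨⟨h1, h2⟩, t, ht, h⟩
    rw [List.mem_range] at ht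
    rw [Bool.and_eq_true, code_vec] at h
    have h3 := vec_getD I.P ⟨t, ht⟩
    have h4 := testP_iff I ⟨t, ht⟩
    simp only at h3 h4
    rw [h3, h4, decide_eq_true_eq] at h
    obtain ⟨w, hw⟩ := greedy I ⟨t, ht⟩ h.2
    refine ⟨h2, h1, w, ?_⟩
    obtain ⟨s, hs⟩ := Finset.card_eq_one.1 h1
    have h5 := h.1
    rw [hs, Finset.mem_singleton] at h5
    ext q
    rw [mem_image, hs, Finset.mem_singleton, ← h5]
    constructor
    · rintro ⟨q0, rfl⟩
      exact hw q0
    · rintro rfl
      exact ⟨⟨t, ht⟩, hw _⟩
  · rintro ⟨h1, h2, w, hw⟩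
    obtain ⟨s, hs⟩ := Finset.card_eq_one.1 h2
    refine ⟨⟨h2, h1⟩, s.val, List.mem_range.2 s.2, ?_⟩
    rw [Bool.and_eq_true, code_vec, vec_getD, testP_iff, decide_eq_true_eq, hs]
    refine ⟨Finset.mem_singleton_self _, fun p q => ⟨w, ?_, ?_⟩⟩
    · have h3 : w.foldl I.δ p ∈ I.image w := mem_image.2 ⟨p, rfl⟩
      rwa [hw, hs, Finset.mem_singleton] at h3
    · have h3 : w.foldl I.δ q ∈ I.image w := mem_image.2 ⟨q, rfl⟩
      rwa [hw, hs, Finset.mem_singleton] at h3

/-- the test for no state -/
def test0 (m : ℕ) (c : Code) : Bool :=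
  (good 0 c && decide (c.2.1 = m)) && decide (c.2.2.2.length = 0)

theorem test0_code {m : ℕ} (I : Inst) : test0 m I.code = true ↔ ReachLetters 0 m I := by
  unfold test0 ReachLetters ReachableSubset
  rw [Bool.and_eq_true, Bool.and_eq_true, good_code, decide_eq_true_eq, decide_eq_true_eq, code_len]
  constructor
  · rintro ⟨⟨h1, h2⟩, h3⟩
    refine ⟨h2, h1, [], ?_⟩
    have he : ∀ S : Finset (Fin I.n), S = ∅ := by
      intro S
      refine Finset.eq_empty_of_forall_notMem fun q _ => ?_
      have := q.2
      omega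
    rw [he I.P, he (I.image [])]
  · rintro ⟨h1, h2, w, hw⟩
    refine ⟨⟨h2, h1⟩, ?_⟩
    rw [Finset.card_eq_zero] at h2
    by_contra h
    have h3 : w.foldl I.δ ⟨0, Nat.pos_of_ne_zero h⟩ ∈ I.image w := mem_image.2 ⟨_, rfl⟩
    rw [hw, h2] at h3
    exact absurd h3 (Finset.notMem_empty _)

/-- The problem is in `P` for at most one state. -/
theorem inP_small {k : ℕ} (hk : k ≤ 1) (m : ℕ) : InP (lang (ReachLetters k m)) := by
  have h : k = 0 ∨ k = 1 := by omega
  rcases h with rfl | rfl
  · refine inP_of (d := test0 m) ?_ test0_code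
    unfold test0
    exact NPC.Poly.and (NPC.Poly.and (poly_good 0) (NPC.Poly.decide_eq (by fun_prop)
      (NPC.Poly.const m))) (by fun_prop)
  · exact inP_of (poly_test2 m) test2_code

end Pool.Agent.Y646.RB
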